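import Mathlib

/-!
A prime ideal containing polynomials with only nondegenerate common zeros (off a hypersurface) is
the ideal of a point.
-/

set_option autoImplicit false

open MvPolynomial

namespace W489

variable {ι : Type} [Fintype ι]

/-- the ideal of the point `z` -/
noncomputable def mz (z : ι → ℂ) : Ideal (MvPolynomial ι ℂ) := Ideal.span (Set.range fun j => X j - C (z j))

theorem mem_mz (z : ι → ℂ) (j : ι) : X j - C (z j) ∈ mz z := Ideal.subset_span ⟨j, rfl⟩

theorem taylor (z : ι → ℂ) (G : MvPolynomial ι ℂ) :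
    G - (C (eval z G) + ∑ j, C (eval z (pderiv j G)) * (X j - C (z j))) ∈ mz z * mz z := by
  classical
  induction G using MvPolynomial.induction_on with
  | C a => simp
  | add p q hp hq =>
    have h := Ideal.add_mem _ hp hq
    convert h using 1
    simp only [map_add, add_mul, Finset.sum_add_distrib]
    ring
  | mul_X p i hp =>
    -- write `X i = z i + (X i - z i)`
    have h1 : (p - (C (eval z p) + ∑ j, C (eval z (pderiv j p)) * (X j - C (z j)))) * X i ∈
        mz z * mz z := Ideal.mul_mem_right _ _ hp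
    have h2 : (∑ j, C (eval z (pderiv j p)) * (X j - C (z j))) * (X i - C (z i)) ∈
        mz z * mz z := by
      refine Ideal.mul_mem_mul ?_ (mem_mz z i)
      exact Ideal.sum_mem _ fun j _ => Ideal.mul_mem_left _ _ (mem_mz z j)
    have h := Ideal.add_mem _ h1 h2
    convert h using 1
    have e1 : ∀ j, eval z (pderiv j (p * X i)) = eval z (pderiv j p) * z i +
        eval z p * (if i = j then 1 else 0) := by
      intro j
      rw [pderiv_mul, map_add, map_mul, map_mul, eval_X, pderiv_X]
      congr 2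
      by_cases h : i = j
      · subst h; simp
      · rw [if_neg h, Pi.single_eq_of_ne (fun h' => h h'), map_zero]
    simp_rw [e1]
    simp only [map_mul, eval_X, map_add, add_mul, Finset.sum_add_distrib]
    have e2 : ∑ j, C (eval z p) * C (if i = j then (1 : ℂ) else 0) * (X j - C (z j)) =
        C (eval z p) * (X i - C (z i)) := by
      rw [Finset.sum_eq_single i]
      · simp
      · intro j _ hj
        rw [if_neg (Ne.symm hj)]; simp
      · intro h; exact absurd (Finset.mem_univ i) h
    rw [e2]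
    have e3 : ∑ j, C (eval z (pderiv j p)) * C (z i) * (X j - C (z j)) =
        (∑ j, C (eval z (pderiv j p)) * (X j - C (z j))) * C (z i) := by
      rw [Finset.sum_mul]
      exact Finset.sum_congr rfl fun j _ => by ring
    rw [e3]
    ring

/-- nondegenerate zeros: the prime is the ideal of a point -/
theorem prime_eq_point (Q : Ideal (MvPolynomial ι ℂ)) (hQ : Q.IsPrime) {x : MvPolynomial ι ℂ}
    (hx : x ∉ Q) {S : Set (MvPolynomial ι ℂ)} (hS : ∀ f ∈ S, f ∈ Q)
    (hnd : ∀ z : ι → ℂ, (∀ f ∈ S, eval z f = 0) → eval z x ≠ 0 → ∀ ξ : ι → ℂ,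
      (∀ f ∈ S, ∑ j, eval z (pderiv j f) * ξ j = 0) → ξ = 0) :
    ∃ z : ι → ℂ, ∀ j, X j - C (z j) ∈ Q := by
  classical
  obtain ⟨z, hz, hxz⟩ : ∃ z : ι → ℂ, (∀ f ∈ Q, eval z f = 0) ∧ eval z x ≠ 0 := by
    by_contra hcon
    push Not at hcon
    apply hx
    rw [← MvPolynomial.IsPrime.vanishingIdeal_zeroLocus (K := ℂ) Q, mem_vanishingIdeal_iff]
    intro z hz
    rw [mem_zeroLocus_iff] at hz
    simp only [MvPolynomial.aeval_eq_eval, RingHom.coe_coe] at hz ⊢
    exact hcon z hz
  -- the span of the gradients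
  let gr : MvPolynomial ι ℂ →ₗ[ℂ] (ι → ℂ) :=
    { toFun := fun f j => eval z (pderiv j f)
      map_add' := fun f g => by funext j; simp
      map_smul' := fun c f => by funext j; simp [smul_eval] }
  have hspan : Submodule.span ℂ (gr '' S) = ⊤ := by
    by_contra hne
    obtain ⟨φ, hφ0, hφ⟩ := Submodule.exists_le_ker_of_lt_top _ (lt_top_iff_ne_top.2 hne)
    have hφv : ∀ v : ι → ℂ, φ v = ∑ j, v j * φ (Pi.single j 1) := by
      intro v
      conv_lhs => rw [← Finset.univ_sum_single v]
      rw [map_sum]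
      refine Finset.sum_congr rfl fun i _ => ?_
      have : (Pi.single i (v i) : ι → ℂ) = v i • (Pi.single i 1 : ι → ℂ) := by
        rw [← Pi.single_smul, smul_eq_mul, mul_one]
      rw [this, map_smul, smul_eq_mul]
    have h0 := hnd z (fun f hf => hz f (hS f hf)) hxz (fun j => φ (Pi.single j 1)) (by
      intro f hf
      have h1 : φ (gr f) = 0 := hφ (Submodule.subset_span ⟨f, hf, rfl⟩)
      rw [hφv] at h1
      exact h1)
    apply hφ0
    ext v
    simp only [LinearMap.comp_apply, LinearMap.zero_apply]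
    rw [hφv]
    have h2 : ∀ j, φ (Pi.single j 1) = 0 := fun j => congrFun h0 j
    simp [h2]
  -- elements of `Q` with given gradient
  have hgrad : ∀ v : ι → ℂ, ∃ F ∈ Q, gr F = v := by
    intro v
    have hv : v ∈ Submodule.span ℂ (gr '' S) := hspan ▸ Submodule.mem_top
    induction hv using Submodule.span_induction with
    | mem x hx =>
      obtain ⟨f, hf, rfl⟩ := hx
      exact ⟨f, hS f hf, rfl⟩
    | zero => exact ⟨0, Q.zero_mem, map_zero _⟩
    | add a b _ _ ha hb =>
      obtain ⟨F, hF, rfl⟩ := ha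
      obtain ⟨G, hG, rfl⟩ := hb
      exact ⟨F + G, Q.add_mem hF hG, map_add _ _ _⟩
    | smul c a _ ha =>
      obtain ⟨F, hF, rfl⟩ := ha
      refine ⟨c • F, ?_, map_smul _ _ _⟩
      rw [MvPolynomial.smul_eq_C_mul]
      exact Q.mul_mem_left _ hF
  have hsup : ∀ j, X j - C (z j) ∈ Q ⊔ mz z * mz z := by
    intro j
    obtain ⟨F, hF, hFg⟩ := hgrad (Pi.single j 1)
    have h1 := taylor z F
    have h2 : C (eval z F) + ∑ i, C (eval z (pderiv i F)) * (X i - C (z i)) =
        X j - C (z j) := by
      rw [hz F hF, map_zero, zero_add]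
      have h3 : ∀ i, eval z (pderiv i F) = (Pi.single j 1 : ι → ℂ) i := fun i => congrFun hFg i
      simp_rw [h3]
      rw [Finset.sum_eq_single j]
      · simp
      · intro i _ hi
        rw [Pi.single_eq_of_ne hi]; simp
      · intro h; exact absurd (Finset.mem_univ j) h
    rw [h2] at h1
    have h3 : X j - C (z j) = F - (F - (X j - C (z j))) := by ring
    rw [h3]
    exact Submodule.sub_mem _ (Ideal.mem_sup_left hF) (Ideal.mem_sup_right h1)
  have hle : mz z ≤ Q ⊔ mz z * mz z := by
    unfold mz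
    rw [Ideal.span_le]
    rintro _ ⟨j, rfl⟩
    exact hsup j
  -- Nakayama
  let N : Submodule (MvPolynomial ι ℂ) (MvPolynomial ι ℂ ⧸ Q) :=
    Submodule.map (Submodule.mkQ Q) (mz z)
  have hNfg : N.FG := by
    apply Submodule.FG.map
    unfold mz
    exact ⟨(Set.finite_range _).toFinset, by rw [Set.Finite.coe_toFinset]⟩
  have hN : N ≤ mz z • N := by
    rintro _ ⟨a, ha, rfl⟩
    obtain ⟨q, hq, b, hb, hab⟩ := Submodule.mem_sup.1 (hle ha)
    have h1 : Submodule.mkQ Q a = Submodule.mkQ Q b := by
      rw [← hab, map_add]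
      have : Submodule.mkQ Q q = 0 := by
        rw [Submodule.mkQ_apply, Submodule.Quotient.mk_eq_zero]; exact hq
      rw [this, zero_add]
    rw [h1]
    have h2 : mz z • N = Submodule.map (Submodule.mkQ Q) (mz z • (mz z)) := by
      rw [Submodule.map_smul'']
    rw [h2]
    exact ⟨b, hb, rfl⟩
  obtain ⟨r, hr1, hr2⟩ :=
    Submodule.exists_sub_one_mem_and_smul_eq_zero_of_fg_of_le_smul (mz z) N hNfg hN
  have hmz : ∀ f ∈ mz z, eval z f = 0 := by
    intro f hf
    have : mz z ≤ RingHom.ker (eval z : MvPolynomial ι ℂ →+* ℂ) := by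
      unfold mz
      rw [Ideal.span_le]
      rintro _ ⟨j, rfl⟩
      simp [RingHom.mem_ker]
    exact this hf
  have hrQ : r ∉ Q := by
    intro h
    have h1 := hz r h
    have h2 := hmz _ hr1
    rw [map_sub, h1, map_one] at h2
    norm_num at h2
  refine ⟨z, fun j => ?_⟩
  have h1 := hr2 (Submodule.mkQ Q (X j - C (z j))) ⟨_, mem_mz z j, rfl⟩
  rw [← map_smul, Submodule.mkQ_apply, Submodule.Quotient.mk_eq_zero, smul_eq_mul] at h1
  exact (hQ.mem_or_mem h1).resolve_left hrQ

end W489
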