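import Pool.Agent.W489.Mono
import Pool.Agent.W489.Nondeg
import Pool.Agent.H364R2.Chain

/-!
Bound for the number of units `g` with `1 - g` a unit, in a group of rank `n`.
-/

set_option autoImplicit false

open MvPolynomial Pool.Agent.H364R2 Set Topology Filter

namespace W489

variable {n : ℕ}

/-- the linear form `∑ w j * X (a j)` -/
noncomputable def lf (a : Fin n → Fin n ⊕ Fin n) (w : Fin n → ℂ) :
    MvPolynomial (Fin n ⊕ Fin n) ℂ := ∑ j, C (w j) * X (a j)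

/-- the cubic relation -/
noncomputable def Ep (w w' : Fin n → ℂ) : MvPolynomial (Fin n ⊕ Fin n) ℂ :=
  lf Sum.inr w * lf Sum.inl w' - lf Sum.inl w * lf Sum.inr w' -
    lf Sum.inl w * lf Sum.inr w * (lf Sum.inr w - lf Sum.inl w)

theorem eval_lf (a : Fin n → Fin n ⊕ Fin n) (w : Fin n → ℂ) (z : Fin n ⊕ Fin n → ℂ) :
    eval z (lf a w) = ∑ j, w j * z (a j) := by
  unfold lf
  rw [map_sum]
  simp

/-- derivative of a polynomial at `z` in the direction `ξ` -/
noncomputable def dd {ι : Type} [Fintype ι] (z ξ : ι → ℂ) (f : MvPolynomial ι ℂ) : ℂ :=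
  ∑ j, eval z (pderiv j f) * ξ j

theorem dd_add {ι : Type} [Fintype ι] (z ξ : ι → ℂ) (f g : MvPolynomial ι ℂ) :
    dd z ξ (f + g) = dd z ξ f + dd z ξ g := by
  unfold dd
  rw [← Finset.sum_add_distrib]
  exact Finset.sum_congr rfl fun j _ => by rw [map_add, map_add]; ring

theorem dd_sub {ι : Type} [Fintype ι] (z ξ : ι → ℂ) (f g : MvPolynomial ι ℂ) :
    dd z ξ (f - g) = dd z ξ f - dd z ξ g := by
  unfold dd
  rw [← Finset.sum_sub_distrib]
  exact Finset.sum_congr rfl fun j _ => by rw [map_sub, map_sub]; ring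

theorem dd_mul {ι : Type} [Fintype ι] (z ξ : ι → ℂ) (f g : MvPolynomial ι ℂ) :
    dd z ξ (f * g) = dd z ξ f * eval z g + eval z f * dd z ξ g := by
  unfold dd
  rw [Finset.sum_mul, Finset.mul_sum, ← Finset.sum_add_distrib]
  exact Finset.sum_congr rfl fun j _ => by rw [pderiv_mul, map_add, map_mul, map_mul]; ring

theorem dd_sum {ι κ : Type} [Fintype ι] (z ξ : ι → ℂ) (s : Finset κ) (f : κ → MvPolynomial ι ℂ) :
    dd z ξ (∑ k ∈ s, f k) = ∑ k ∈ s, dd z ξ (f k) := by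
  classical
  induction s using Finset.induction_on with
  | empty => simp [dd]
  | insert a s ha ih => rw [Finset.sum_insert ha, Finset.sum_insert ha, dd_add, ih]

theorem dd_X {ι : Type} [Fintype ι] (z ξ : ι → ℂ) (i : ι) : dd z ξ (X i) = ξ i := by
  classical
  unfold dd
  rw [Finset.sum_eq_single i]
  · simp
  · intro j _ hj
    rw [pderiv_X_of_ne (Ne.symm hj)]; simp
  · intro h; exact absurd (Finset.mem_univ i) h

theorem dd_C {ι : Type} [Fintype ι] (z ξ : ι → ℂ) (c : ℂ) : dd z ξ (C c) = 0 := by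
  unfold dd
  simp

theorem dd_lf (a : Fin n → Fin n ⊕ Fin n) (w : Fin n → ℂ) (z ξ : Fin n ⊕ Fin n → ℂ) :
    dd z ξ (lf a w) = ∑ j, w j * ξ (a j) := by
  unfold lf
  rw [dd_sum]
  refine Finset.sum_congr rfl fun j _ => ?_
  rw [dd_mul, dd_X, dd_C]
  simp

theorem lf_box (a : Fin n → Fin n ⊕ Fin n) (w : Fin n → ℂ) :
    lf a w ∈ box ℂ (fun _ => 1) 1 := by
  unfold lf
  refine Submodule.sum_mem _ fun j _ => ?_
  rw [← MvPolynomial.smul_eq_C_mul]
  refine Submodule.smul_mem _ _ ?_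
  rw [mem_box]
  intro m hm i
  rw [support_X, Finset.mem_singleton] at hm
  subst hm
  rw [Finsupp.single_apply]
  split_ifs <;> simp

theorem Ep_box (w w' : Fin n → ℂ) : Ep w w' ∈ box ℂ (fun _ : Fin n ⊕ Fin n => 3) 1 := by
  have h1 : Ep w w' ∈ box ℂ (fun _ : Fin n ⊕ Fin n => 1) 3 := by
    have h2 : ∀ (a b : Fin n → Fin n ⊕ Fin n) (w w' : Fin n → ℂ), lf a w * lf b w' ∈
        box ℂ (fun _ : Fin n ⊕ Fin n => 1) (1 + 1) := fun a b w w' =>
      mul_mem_box ℂ _ (lf_box a w) (lf_box b w')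
    have h3 : box ℂ (fun _ : Fin n ⊕ Fin n => 1) (1 + 1) ≤ box ℂ (fun _ => 1) 3 :=
      box_mono ℂ _ (by norm_num)
    have h4 : lf Sum.inl w * lf Sum.inr w * (lf Sum.inr w - lf Sum.inl w) ∈
        box ℂ (fun _ : Fin n ⊕ Fin n => 1) (1 + 1 + 1) :=
      mul_mem_box ℂ _ (h2 _ _ _ _) (Submodule.sub_mem _ (lf_box _ _) (lf_box _ _))
    exact Submodule.sub_mem _ (Submodule.sub_mem _ (h3 (h2 _ _ _ _)) (h3 (h2 _ _ _ _))) h4
  rw [mem_box] at h1 ⊢
  intro m hm j
  have := h1 m hm j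
  simpa using this

section

variable {M : Type} [TopologicalSpace M] [ConnectedSpace M] [LocallyConnectedSpace M]
  {τ : M → ℂ} {u : Fin n → M → ℂ}

/-- `∑ c i * D (u i) / u i` -/
noncomputable def W1 (τ : M → ℂ) (u : Fin n → M → ℂ) (i : Fin n) (x : M) : ℂ :=
  DM τ (u i) x / u i x

theorem nondeg_aux (hτ : Continuous τ)
    (hτo : IsOpenMap τ) (hu : ∀ i, HolM τ (u i)) (h0 : ∀ i x, u i x ≠ 0)
    (hind : ∀ c : Fin n → ℤ, c ≠ 0 →
      ¬ ∃ h : M → ℂ, Continuous h ∧ ∀ x, Complex.exp (h x) = ∏ i, u i x ^ c i)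
    (w₀ : M) (m l μ ν : Fin n → ℂ)
    (hE : ∀ x, (∑ j, W1 τ u j x * l j) * (∑ j, DM τ (W1 τ u j) x * m j) -
      (∑ j, W1 τ u j x * m j) * (∑ j, DM τ (W1 τ u j) x * l j) -
      (∑ j, W1 τ u j x * m j) * (∑ j, W1 τ u j x * l j) *
        ((∑ j, W1 τ u j x * l j) - (∑ j, W1 τ u j x * m j)) = 0)
    (hdE : ∀ x, (∑ j, W1 τ u j x * ν j) * (∑ j, DM τ (W1 τ u j) x * m j) +
      (∑ j, W1 τ u j x * l j) * (∑ j, DM τ (W1 τ u j) x * μ j) -
      ((∑ j, W1 τ u j x * μ j) * (∑ j, DM τ (W1 τ u j) x * l j) +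
      (∑ j, W1 τ u j x * m j) * (∑ j, DM τ (W1 τ u j) x * ν j)) -
      (((∑ j, W1 τ u j x * μ j) * (∑ j, W1 τ u j x * l j) +
        (∑ j, W1 τ u j x * m j) * (∑ j, W1 τ u j x * ν j)) *
        ((∑ j, W1 τ u j x * l j) - (∑ j, W1 τ u j x * m j)) +
        (∑ j, W1 τ u j x * m j) * (∑ j, W1 τ u j x * l j) *
        ((∑ j, W1 τ u j x * ν j) - (∑ j, W1 τ u j x * μ j))) = 0)
    (hl : (∑ j, W1 τ u j w₀ * l j) ≠ 0)
    (hlm : (∑ j, W1 τ u j w₀ * l j) - (∑ j, W1 τ u j w₀ * m j) ≠ 0) : μ = 0 := by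
  have hW : ∀ i, HolM τ (W1 τ u i) := fun i => ((hu i).DM hτ hτo).div (hu i) (h0 i)
  have hS : ∀ a : Fin n → ℂ, HolM τ (fun x => ∑ j, W1 τ u j x * a j) := fun a =>
    HolM.sum _ fun j => (hW j).mul (HolM.const _)
  have hSd : ∀ (a : Fin n → ℂ) (x : M), DM τ (fun x => ∑ j, W1 τ u j x * a j) x =
      ∑ j, DM τ (W1 τ u j) x * a j := by
    intro a x
    rw [DM_sum hτo _ (fun j => (hW j).mul (HolM.const _))]
    refine Finset.sum_congr rfl fun j _ => ?_
    rw [DM_mul hτo (hW j) (HolM.const _), DM_const hτo]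
    ring
  refine mono hτ hτo hu h0 hind
    (P := fun x => (∑ j, W1 τ u j x * l j) * (∑ j, W1 τ u j x * μ j) -
      (∑ j, W1 τ u j x * m j) * (∑ j, W1 τ u j x * ν j))
    (Q := fun x => (∑ j, W1 τ u j x * l j) *
      ((∑ j, W1 τ u j x * l j) - (∑ j, W1 τ u j x * m j)))
    (((hS l).mul (hS μ)).sub ((hS m).mul (hS ν))) ((hS l).mul ((hS l).sub (hS m)))
    (w₀ := w₀) (mul_ne_zero hl hlm) (μ := μ) ?_
  intro x
  rw [DM_sub hτo ((hS l).mul (hS μ)) ((hS m).mul (hS ν)), DM_mul hτo (hS l) (hS μ),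
    DM_mul hτo (hS m) (hS ν), DM_mul hτo (hS l) ((hS l).sub (hS m)),
    DM_sub hτo (hS l) (hS m), hSd, hSd, hSd, hSd]
  have e1 := hE x
  have e2 := hdE x
  have e3 : ∑ i, μ i * (DM τ (u i) x / u i x) = ∑ j, W1 τ u j x * μ j :=
    Finset.sum_congr rfl fun j _ => by unfold W1; ring
  rw [e3]
  set Xx := ∑ j, W1 τ u j x * m j
  set Yy := ∑ j, W1 τ u j x * l j
  set X' := ∑ j, DM τ (W1 τ u j) x * m j
  set Y' := ∑ j, DM τ (W1 τ u j) x * l j
  set ξ := ∑ j, W1 τ u j x * μ j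
  set η := ∑ j, W1 τ u j x * ν j
  set ξ' := ∑ j, DM τ (W1 τ u j) x * μ j
  set η' := ∑ j, DM τ (W1 τ u j) x * ν j
  linear_combination (Yy * (Yy - Xx)) * e2 - 2 * η * (Yy - Xx) * e1 + (Yy * ξ - Xx * η) * e1

theorem count (hτ : Continuous τ)
    (hτo : IsOpenMap τ) (hu : ∀ i, HolM τ (u i)) (h0 : ∀ i x, u i x ≠ 0)
    (hind : ∀ c : Fin n → ℤ, c ≠ 0 →
      ¬ ∃ h : M → ℂ, Continuous h ∧ ∀ x, Complex.exp (h x) = ∏ i, u i x ^ c i)
    (w₀ : M) {Γ : Type} [Fintype Γ] {g : Γ → M → ℂ} (hg : ∀ γ, HolM τ (g γ))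
    (hg0 : ∀ γ x, g γ x ≠ 0) (hg1 : ∀ γ x, g γ x ≠ 1) (hgd : ∀ γ, DM τ (g γ) w₀ ≠ 0)
    (hginj : ∀ γ γ', γ ≠ γ' → g γ w₀ ≠ g γ' w₀) {p q : Γ → Fin n → ℂ}
    (hp : ∀ γ x, DM τ (g γ) x / g γ x = ∑ i, p γ i * (DM τ (u i) x / u i x))
    (hq : ∀ γ x, - DM τ (g γ) x / (1 - g γ x) = ∑ i, q γ i * (DM τ (u i) x / u i x)) :
    Fintype.card Γ ≤ 2 ^ ((2 * n + 1) * (2 * n)) * 3 ^ (2 * n) := by
  classical
  have hW : ∀ i, HolM τ (W1 τ u i) := fun i => ((hu i).DM hτ hτo).div (hu i) (h0 i)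
  have hg1' : ∀ γ x, 1 - g γ x ≠ 0 := fun γ x h => hg1 γ x (by linear_combination -h)
  -- the points
  let pt : Γ → Fin n ⊕ Fin n → ℂ := fun γ => Sum.elim (p γ) (q γ)
  have hX : ∀ γ x, ∑ j, W1 τ u j x * p γ j = DM τ (g γ) x / g γ x := by
    intro γ x
    rw [hp]
    exact Finset.sum_congr rfl fun j _ => by unfold W1; ring
  have hY : ∀ γ x, ∑ j, W1 τ u j x * q γ j = - DM τ (g γ) x / (1 - g γ x) := by
    intro γ x
    rw [hq]
    exact Finset.sum_congr rfl fun j _ => by unfold W1; ring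
  have hSd : ∀ (a : Fin n → ℂ) (x : M), DM τ (fun x => ∑ j, W1 τ u j x * a j) x =
      ∑ j, DM τ (W1 τ u j) x * a j := by
    intro a x
    rw [DM_sum hτo _ (fun j => (hW j).mul (HolM.const _))]
    refine Finset.sum_congr rfl fun j _ => ?_
    rw [DM_mul hτo (hW j) (HolM.const _), DM_const hτo]
    ring
  have hDg : ∀ γ, HolM τ (DM τ (g γ)) := fun γ => (hg γ).DM hτ hτo
  have hX' : ∀ γ x, (∑ j, DM τ (W1 τ u j) x * p γ j) * g γ x ^ 2 =
      DM τ (DM τ (g γ)) x * g γ x - DM τ (g γ) x ^ 2 := by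
    intro γ x
    rw [← hSd]
    have e1 : (fun x => ∑ j, W1 τ u j x * p γ j) = fun x => DM τ (g γ) x / g γ x :=
      funext (hX γ)
    rw [e1]
    have e2 : DM τ (DM τ (g γ)) x = DM τ (fun x => DM τ (g γ) x / g γ x * g γ x) x := by
      congr 1
      funext y
      rw [div_mul_cancel₀ _ (hg0 γ y)]
    rw [e2, DM_mul hτo ((hDg γ).div (hg γ) (hg0 γ)) (hg γ)]
    have := hg0 γ x
    field_simp
    ring
  have hone : ∀ γ, HolM τ (fun x => 1 - g γ x) := fun γ => (HolM.const 1).sub (hg γ)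
  have hY' : ∀ γ x, (∑ j, DM τ (W1 τ u j) x * q γ j) * (1 - g γ x) ^ 2 =
      - DM τ (DM τ (g γ)) x * (1 - g γ x) - DM τ (g γ) x ^ 2 := by
    intro γ x
    rw [← hSd]
    have e1 : (fun x => ∑ j, W1 τ u j x * q γ j) = fun x => (-1 * DM τ (g γ) x) / (1 - g γ x) := by
      funext y
      rw [hY]
      ring
    rw [e1]
    have e2 : -1 * DM τ (DM τ (g γ)) x =
        DM τ (fun x => (-1 * DM τ (g γ) x) / (1 - g γ x) * (1 - g γ x)) x := by
      rw [← DM_const_mul hτo (-1) (hDg γ)]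
      congr 1
      funext y
      rw [div_mul_cancel₀ _ (hg1' γ y)]
    rw [DM_mul hτo (((hDg γ).const_mul (-1)).div (hone γ) (hg1' γ)) (hone γ),
      DM_sub hτo (HolM.const 1) (hg γ), DM_const hτo] at e2
    have := hg1' γ x
    field_simp at e2 ⊢
    linear_combination -e2
  -- the relation at the points
  have hrel : ∀ γ x, eval (pt γ) (Ep (fun j => W1 τ u j x) (fun j => DM τ (W1 τ u j) x)) = 0 := by
    intro γ x
    unfold Ep
    simp only [map_sub, map_mul, eval_lf, pt, Sum.elim_inl, Sum.elim_inr]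
    have e1 := hX γ x
    have e2 := hY γ x
    have e3 := hX' γ x
    have e4 := hY' γ x
    have a0 := hg0 γ x
    have a1 := hg1' γ x
    rw [e1, e2]
    set G := g γ x
    set D := DM τ (g γ) x
    have e3' : ∑ j, DM τ (W1 τ u j) x * p γ j = (DM τ (DM τ (g γ)) x * G - D ^ 2) / G ^ 2 := by
      rw [eq_div_iff (pow_ne_zero 2 a0)]; exact e3
    have e4' : ∑ j, DM τ (W1 τ u j) x * q γ j =
        (- DM τ (DM τ (g γ)) x * (1 - G) - D ^ 2) / (1 - G) ^ 2 := by
      rw [eq_div_iff (pow_ne_zero 2 a1)]; exact e4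
    rw [e3', e4']
    field_simp
    ring
  -- the polynomial `x`
  let xx : MvPolynomial (Fin n ⊕ Fin n) ℂ :=
    lf Sum.inl (fun j => W1 τ u j w₀) * lf Sum.inr (fun j => W1 τ u j w₀) *
      (lf Sum.inr (fun j => W1 τ u j w₀) - lf Sum.inl (fun j => W1 τ u j w₀))
  have hxx : ∀ γ, eval (pt γ) xx ≠ 0 := by
    intro γ
    simp only [xx, map_sub, map_mul, eval_lf, pt, Sum.elim_inl, Sum.elim_inr]
    rw [hX, hY]
    have a0 := hg0 γ w₀
    have a1 := hg1' γ w₀
    have a2 := hgd γ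
    refine mul_ne_zero (mul_ne_zero (div_ne_zero a2 a0) (div_ne_zero (neg_ne_zero.2 a2) a1)) ?_
    have e : - DM τ (g γ) w₀ / (1 - g γ w₀) - DM τ (g γ) w₀ / g γ w₀ =
        - DM τ (g γ) w₀ / ((1 - g γ w₀) * g γ w₀) := by
      field_simp
      ring
    rw [e]
    exact div_ne_zero (neg_ne_zero.2 a2) (mul_ne_zero a1 a0)
  -- injectivity
  have hptinj : Function.Injective pt := by
    intro γ γ' h
    by_contra hne
    apply hginj γ γ' hne
    have h1 : p γ = p γ' := funext fun j => congrFun h (Sum.inl j)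
    have h2 : q γ = q γ' := funext fun j => congrFun h (Sum.inr j)
    have e1 := hX γ w₀
    have e2 := hY γ w₀
    rw [h1, hX γ' w₀] at e1
    rw [h2, hY γ' w₀] at e2
    have a0 := hg0 γ w₀
    have a1 := hg1' γ w₀
    have a2 := hgd γ
    have b0 := hg0 γ' w₀
    have b1 := hg1' γ' w₀
    have b2 := hgd γ'
    rw [div_eq_div_iff b0 a0] at e1
    rw [div_eq_div_iff b1 a1] at e2
    -- `D' G = D G'` and `D' (1 - G) = D (1 - G')`
    have e3 : DM τ (g γ') w₀ = DM τ (g γ) w₀ := by linear_combination e1 - e2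
    rw [e3] at e1
    exact mul_left_cancel₀ a2 e1
  -- apply the Bezout type theorem
  have hmax : ∀ z : Fin n ⊕ Fin n → ℂ, (mz z).IsMaximal ∧ ∀ f, f ∈ mz z ↔ eval z f = 0 := by
    intro z
    have h1 : ∀ f, f ∈ mz z ↔ eval z f = 0 := by
      intro f
      constructor
      · intro hf
        have : mz z ≤ RingHom.ker (eval z : MvPolynomial (Fin n ⊕ Fin n) ℂ →+* ℂ) := by
          unfold mz
          rw [Ideal.span_le]
          rintro _ ⟨j, rfl⟩
          simp [RingHom.mem_ker]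
        exact this hf
      · intro hf
        have h2 := taylor z f
        rw [hf, map_zero, zero_add] at h2
        have h3 : f = (f - ∑ j, C (eval z (pderiv j f)) * (X j - C (z j))) +
          ∑ j, C (eval z (pderiv j f)) * (X j - C (z j)) := by ring
        rw [h3]
        exact Ideal.add_mem _ (Ideal.mul_le_right h2)
          (Ideal.sum_mem _ fun j _ => Ideal.mul_mem_left _ _ (mem_mz z j))
    refine ⟨?_, h1⟩
    have h2 : mz z = RingHom.ker (eval z : MvPolynomial (Fin n ⊕ Fin n) ℂ →+* ℂ) := by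
      ext f
      rw [h1, RingHom.mem_ker]
    rw [h2]
    exact RingHom.ker_isMaximal_of_surjective _ fun c => ⟨C c, eval_C c⟩
  let S : Submodule ℂ (MvPolynomial (Fin n ⊕ Fin n) ℂ) :=
    Submodule.span ℂ (range fun x : M => Ep (fun j => W1 τ u j x) (fun j => DM τ (W1 τ u j) x))
  have hb := bezout_main (K := ℂ) (k := ℂ) (fun _ : Fin n ⊕ Fin n => 3) (fun _ => by norm_num)
    xx S ?_ ?_ (fun γ => mz (pt γ)) ?_ ?_ ?_ (κ := Unit) (fun _ _ => 1) ?_
  · simpa [Fintype.card_sum, ← two_mul] using hb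
  · intro f hf
    have : S ≤ box ℂ (fun _ : Fin n ⊕ Fin n => 3) 1 := by
      rw [Submodule.span_le]
      rintro _ ⟨x, rfl⟩
      exact Ep_box _ _
    exact this hf
  · intro Q hQ hQS hxQ
    obtain ⟨z, hz⟩ := prime_eq_point Q hQ hxQ
      (S := range fun x : M => Ep (fun j => W1 τ u j x) (fun j => DM τ (W1 τ u j) x))
      (fun f hf => hQS f (Submodule.subset_span hf)) (by
        intro z hz hzx ξ hξ
        simp only [xx, map_sub, map_mul, eval_lf] at hzx
        have hzx1 := left_ne_zero_of_mul hzx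
        have hzx2 := right_ne_zero_of_mul hzx
        have hzx3 := left_ne_zero_of_mul hzx1
        have hzx4 := right_ne_zero_of_mul hzx1
        have hz' : ∀ x, _ := fun x => hz _ ⟨x, rfl⟩
        have hξ' : ∀ x, dd z ξ (Ep (fun j => W1 τ u j x) (fun j => DM τ (W1 τ u j) x)) = 0 :=
          fun x => hξ _ ⟨x, rfl⟩
        simp only [Ep, map_sub, map_mul, eval_lf] at hz'
        simp only [Ep, dd_sub, dd_mul, dd_lf, map_sub, map_mul, eval_lf] at hξ'
        have hμ : (fun j => ξ (Sum.inl j)) = 0 :=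
          nondeg_aux hτ hτo hu h0 hind w₀ (fun j => z (Sum.inl j)) (fun j => z (Sum.inr j))
            (fun j => ξ (Sum.inl j)) (fun j => ξ (Sum.inr j)) (fun x => hz' x)
            (fun x => by linear_combination hξ' x) hzx4 hzx2
        have hν : (fun j => ξ (Sum.inr j)) = 0 :=
          nondeg_aux hτ hτo hu h0 hind w₀ (fun j => z (Sum.inr j)) (fun j => z (Sum.inl j))
            (fun j => ξ (Sum.inr j)) (fun j => ξ (Sum.inl j))
            (fun x => by linear_combination -hz' x)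
            (fun x => by linear_combination -hξ' x) hzx3
            (fun h => hzx2 (by linear_combination -h))
        funext j
        rcases j with j | j
        · exact congrFun hμ j
        · exact congrFun hν j)
    intro j
    refine ⟨Polynomial.X - Polynomial.C (z j), Polynomial.monic_X_sub_C _, ?_⟩
    simpa [MvPolynomial.algebraMap_eq] using hz j
  · intro γ f hf
    have : S ≤ (mz (pt γ)).restrictScalars ℂ := by
      rw [Submodule.span_le]
      rintro _ ⟨x, rfl⟩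
      exact ((hmax (pt γ)).2 _).2 (hrel γ x)
    exact this hf
  · intro γ f hf
    rw [(hmax (pt γ)).2, map_mul] at hf
    rw [(hmax (pt γ)).2]
    exact (mul_eq_zero.1 hf).resolve_left (hxx γ)
  · intro γ γ' hne
    have i1 := (hmax (pt γ)).1
    have i2 := (hmax (pt γ')).1
    refine Ideal.isCoprime_of_isMaximal fun h => hne (hptinj ?_)
    funext j
    have h' : mz (pt γ) = mz (pt γ') := h
    have h1 : X j - C (pt γ j) ∈ mz (pt γ') := by
      rw [← h']; exact mem_mz _ j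
    rw [(hmax (pt γ')).2, map_sub, eval_X, eval_C] at h1
    linear_combination -h1
  · intro γ
    rw [Fintype.linearIndependent_iff]
    intro c hc i
    have h1 : c i • (1 : MvPolynomial (Fin n ⊕ Fin n) ℂ ⧸ mz (pt γ)) = 0 := by
      simpa using hc
    by_contra hci
    have h2 : (1 : MvPolynomial (Fin n ⊕ Fin n) ℂ ⧸ mz (pt γ)) = 0 := by
      have := congrArg (fun y => (c i)⁻¹ • y) h1
      simpa [smul_smul, inv_mul_cancel₀ hci] using this
    have h3 : (1 : MvPolynomial (Fin n ⊕ Fin n) ℂ) ∈ mz (pt γ) := by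
      rw [← Ideal.Quotient.eq_zero_iff_mem, map_one]
      exact h2
    exact (hmax (pt γ)).1.ne_top ((Ideal.eq_top_iff_one _).2 h3)

end

end W489
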