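import Pool.Agent.W489.Asm2
import Pool.Agent.W489.Count
import Pool.Agent.W424.T5
import Pool.Agent.W84.T6

/-!
The bound for the number of holomorphic maps to `ℂ \ {0, 1}` in terms of the rank.
-/

set_option autoImplicit false

open Metric Set Topology Filter

namespace W489

open H113G

/-! ### Logarithmic derivatives of monomials -/

section logd

variable {M : Type} [TopologicalSpace M] {τ : M → ℂ}

theorem HolM.zpow {f : M → ℂ} (hf : HolM τ f) (h0 : ∀ x, f x ≠ 0) (a : ℤ) :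
    HolM τ (fun x => f x ^ a) := by
  intro w
  obtain ⟨F, hF, h⟩ := hf w
  refine ⟨fun t => F t ^ a, hF.fun_zpow ?_, ?_⟩
  · rw [← h.self_of_nhds]; exact h0 w
  · filter_upwards [h] with x hx
    rw [hx]

theorem DM_zpow (hτo : IsOpenMap τ) {f : M → ℂ} (hf : HolM τ f) (h0 : ∀ x, f x ≠ 0) (a : ℤ)
    (w : M) : DM τ (fun x => f x ^ a) w = (a * (DM τ f w / f w)) * f w ^ a := by
  obtain ⟨F, hF, h⟩ := hf w
  have hF0 : F (τ w) ≠ 0 := by rw [← h.self_of_nhds]; exact h0 w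
  rw [DM_eq hτo hF h, DM_eq hτo (F := fun t => F t ^ a) (hF.fun_zpow hF0)]
  · have h1 : HasDerivAt (fun t => F t ^ a) (((a : ℂ) * F (τ w) ^ (a - 1)) * deriv F (τ w)) (τ w) :=
      (hasDerivAt_zpow a (F (τ w)) (Or.inl hF0)).comp (τ w) hF.differentiableAt.hasDerivAt
    rw [h1.deriv, h.self_of_nhds, zpow_sub_one₀ hF0]
    field_simp
  · filter_upwards [h] with x hx
    rw [hx]

theorem prod_zpow {ι : Type*} (s : Finset ι) (hτo : IsOpenMap τ) {f : ι → M → ℂ}
    (hf : ∀ i, HolM τ (f i)) (h0 : ∀ i x, f i x ≠ 0) (a : ι → ℤ) :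
    HolM τ (fun x => ∏ i ∈ s, f i x ^ a i) ∧ ∀ w, DM τ (fun x => ∏ i ∈ s, f i x ^ a i) w =
      (∑ i ∈ s, a i * (DM τ (f i) w / f i w)) * ∏ i ∈ s, f i w ^ a i := by
  classical
  induction s using Finset.induction_on with
  | empty =>
    refine ⟨by simpa using HolM.const (τ := τ) (1 : ℂ), fun w => ?_⟩
    simpa using DM_const hτo (1 : ℂ) w
  | insert b s hb ih =>
    obtain ⟨h1, h2⟩ := ih
    have e1 : (fun x => ∏ i ∈ insert b s, f i x ^ a i) =
        fun x => f b x ^ a b * ∏ i ∈ s, f i x ^ a i := by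
      funext x; rw [Finset.prod_insert hb]
    rw [e1]
    refine ⟨((hf b).zpow (h0 b) _).mul h1, fun w => ?_⟩
    rw [DM_mul hτo ((hf b).zpow (h0 b) _) h1, h2, DM_zpow hτo (hf b) (h0 b),
      Finset.sum_insert hb, Finset.prod_insert hb]
    ring

end logd

/-! ### A maximal independent subset -/

theorem exists_indep {ι : Type} [Fintype ι] [DecidableEq ι] (R : (ι → ℤ) → Prop) {s : ℕ}
    (hs : ∀ j : Fin (s + 1) → ι, Function.Injective j →
      ∃ a : ι → ℤ, a ≠ 0 ∧ (∀ l, l ∉ Set.range j → a l = 0) ∧ R a) :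
    ∃ J : Finset ι, J.card ≤ s ∧ (∀ a : ι → ℤ, (∀ l, l ∉ J → a l = 0) → R a → a = 0) ∧
      ∀ l, l ∉ J → ∃ a : ι → ℤ, R a ∧ a l ≠ 0 ∧ ∀ l', l' ∉ J → l' ≠ l → a l' = 0 := by
  classical
  let P : Finset ι → Prop := fun J => ∀ a : ι → ℤ, (∀ l, l ∉ J → a l = 0) → R a → a = 0
  have hne : (Finset.univ.filter P).Nonempty := by
    refine ⟨∅, ?_⟩
    rw [Finset.mem_filter]
    refine ⟨Finset.mem_univ _, fun a ha _ => ?_⟩
    funext l
    exact ha l (by simp)
  obtain ⟨J, hJ, hmax⟩ := Finset.exists_max_image (Finset.univ.filter P) Finset.card hne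
  rw [Finset.mem_filter] at hJ
  refine ⟨J, ?_, hJ.2, ?_⟩
  · by_contra hcon
    push Not at hcon
    obtain ⟨J', hJ', hcard⟩ := Finset.exists_subset_card_eq (Nat.succ_le_of_lt hcon)
    let eq : J' ≃ Fin (s + 1) := J'.equivFinOfCardEq hcard
    obtain ⟨a, ha, ha2, ha3⟩ := hs (fun i => (eq.symm i : ι)) (fun i i' h => by
      exact eq.symm.injective (Subtype.ext h))
    apply ha
    apply hJ.2 a _ ha3
    intro l hl
    apply ha2
    rintro ⟨i, rfl⟩
    exact hl (hJ' (eq.symm i).2)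
  · intro l hl
    by_contra hcon
    push Not at hcon
    have hins : P (insert l J) := by
      intro a ha hR
      by_cases hal : a l = 0
      · refine hJ.2 a (fun l' hl' => ?_) hR
        by_cases hll : l' = l
        · rw [hll]; exact hal
        · exact ha l' (by simp [hll, hl'])
      · obtain ⟨l', h1, h2, h3⟩ := hcon a hR hal
        exact absurd (ha l' (by simp [h1, h2])) h3
    have h1 := hmax (insert l J) (by rw [Finset.mem_filter]; exact ⟨Finset.mem_univ _, hins⟩)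
    rw [Finset.card_insert_of_notMem hl] at h1
    omega

/-! ### The base point -/

section base

variable {m : ℕ} {Y : Set (Fin m → ℂ)}

theorem base_point {k e : ℕ} {p : Fin k → MvPolynomial (Fin m) ℂ}
    {δ : MvPolynomial (Fin k) ℂ} (ha : IsAlg Y) (hY : HasCharts Y) (hc : IsConnected Y)
    (hd : Data Y p δ e) {Γ : Type} [Fintype Γ] [Nonempty Γ] {f : Γ → (Fin m → ℂ) → ℂ}
    (hf : ∀ γ, HolOn Y (f γ)) (hnc : ∀ γ, ∃ a ∈ Y, ∃ b ∈ Y, f γ a ≠ f γ b)
    (hne : ∀ γ γ', γ ≠ γ' → ∃ y ∈ Y, f γ y ≠ f γ' y) :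
    ∃ (c v : Fin k → ℂ) (i₀ : Fin k) (y₀ : Fin m → ℂ)
      (hy₀ : y₀ ∈ connectedComponentIn (LineP Y (prm p c) (trp c δ) v) y₀),
      MvPolynomial.eval c δ ≠ 0 ∧ v i₀ ≠ 0 ∧ y₀ ∈ Y ∧ prm p c y₀ = 0 ∧
      (∀ γ γ', γ ≠ γ' → f γ y₀ ≠ f γ' y₀) ∧
      ∀ γ, DM (fun y : MM Y (prm p c) (trp c δ) v y₀ => tt (prm p c) v i₀ y)
        (fun y => f γ y) ⟨y₀, hy₀⟩ ≠ 0 := by
  classical
  -- the point `y₁`
  have hδ : HolOn Y (fun y => MvPolynomial.eval (fun i => MvPolynomial.eval y (p i)) δ) :=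
    holOn_of_diff ((differentiable_eval δ).comp
      (differentiable_pi.2 fun i => differentiable_eval (p i)))
  have hδ0 := hd.2.2.1 δ hd.1
  obtain ⟨hpr1, hpr2⟩ := prod_ne (Finset.univ.filter fun q : Γ × Γ => q.1 ≠ q.2)
    (F := fun q y => f q.1 y - f q.2 y) hY hc (fun q _ => HolOn_sub (hf q.1) (hf q.2))
    (fun q hq => by
      obtain ⟨y, hy, h⟩ := hne q.1 q.2 (Finset.mem_filter.1 hq).2
      exact ⟨y, hy, sub_ne_zero.2 h⟩)
  obtain ⟨y₁, hy₁, hy₁'⟩ := mul_ne hY hc hδ hpr1 hδ0 hpr2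
  have hc₁ := left_ne_zero_of_mul hy₁'
  have hdist₁ : ∀ γ γ', γ ≠ γ' → f γ y₁ ≠ f γ' y₁ := by
    intro γ γ' h
    have h1 := right_ne_zero_of_mul hy₁'
    rw [Finset.prod_ne_zero_iff] at h1
    have := h1 (γ, γ') (by rw [Finset.mem_filter]; exact ⟨Finset.mem_univ _, h⟩)
    exact sub_ne_zero.1 this
  set c₁ : Fin k → ℂ := fun i => MvPolynomial.eval y₁ (p i) with hc₁def
  have hcov₁ := cov_of_data ha hd hc₁
  have hpr₁ : prm p c₁ y₁ = 0 := by simp [prm, hc₁def]
  -- a section near `y₁`, with the neighbourhood property at every point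
  obtain ⟨r, hr, s, hs, h⟩ := hcov₁.sections 0 hcov₁.base
  obtain ⟨-, -, h3⟩ := h 0 (mem_ball_self hr)
  obtain ⟨i, hi⟩ : y₁ ∈ Set.range (fun i => s i 0) := by rw [← h3]; exact ⟨hy₁, hpr₁⟩
  have hi' : s i 0 = y₁ := hi
  have hprc : Continuous (prm p c₁) := hcov₁.diff.continuous
  have hsec : ∀ z ∈ ball (0 : Fin k → ℂ) r, s i z ∈ Y ∧ prm p c₁ (s i z) = z ∧
      ∀ᶠ y' in 𝓝 (s i z), y' ∈ Y → prm p c₁ y' ∈ ball 0 r ∧ s i (prm p c₁ y') = y' := by
    intro z hz
    obtain ⟨h5, h6, h7⟩ := h z hz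
    have h8 : s i z ∈ {y | y ∈ Y ∧ prm p c₁ y = z} := by rw [h7]; exact ⟨i, rfl⟩
    refine ⟨h8.1, h8.2, ?_⟩
    have hball : ∀ᶠ y' in 𝓝 (s i z), prm p c₁ y' ∈ ball 0 r :=
      hprc.continuousAt.preimage_mem_nhds (by rw [h8.2]; exact isOpen_ball.mem_nhds hz)
    have hne' : ∀ᶠ y' in 𝓝 (s i z), ∀ j, j ≠ i → s j (prm p c₁ y') ≠ y' := by
      rw [eventually_all]
      intro j
      by_cases hj : j = i
      · exact Eventually.of_forall fun y' h => absurd hj h
      · have hcj : ContinuousAt (s j) (prm p c₁ (s i z)) := by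
          rw [h8.2]
          exact ((hs j).differentiableAt (isOpen_ball.mem_nhds hz)).continuousAt
        have ht : Tendsto (fun y' => s j (prm p c₁ y')) (𝓝 (s i z))
            (𝓝 (s j (prm p c₁ (s i z)))) := hcj.tendsto.comp hprc.continuousAt.tendsto
        have h5 : Tendsto (fun y' => dist (s j (prm p c₁ y')) y') (𝓝 (s i z))
            (𝓝 (dist (s j (prm p c₁ (s i z))) (s i z))) := ht.dist tendsto_id
        have h6' : 0 < dist (s j (prm p c₁ (s i z))) (s i z) := by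
          rw [dist_pos, h8.2]
          intro heq
          exact hj (h6 heq)
        filter_upwards [h5.eventually (lt_mem_nhds h6')] with y' hy' _
        exact dist_pos.1 hy'
    filter_upwards [hball, hne'] with y' h5 h6 hy'
    refine ⟨h5, ?_⟩
    obtain ⟨h7, h8, h9⟩ := h _ h5
    have h10 : y' ∈ Set.range (fun i => s i (prm p c₁ y')) := by rw [← h9]; exact ⟨hy', rfl⟩
    obtain ⟨j, hj⟩ := h10
    by_cases hji : j = i
    · rw [← hji]; exact hj
    · exact absurd hj (h6 j hji)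
  -- the direction `v`
  obtain ⟨hq1, hq2⟩ := prod_ne (Finset.univ : Finset Γ) (F := fun γ y => f γ y - f γ y₁) hY hc
    (fun γ _ => HolOn_sub (hf γ) (HolOn_const _)) (fun γ _ => by
      obtain ⟨a, ha, b, hb, hab⟩ := hnc γ
      by_cases h : f γ a = f γ y₁
      · exact ⟨b, hb, sub_ne_zero.2 fun h' => hab (h.trans h'.symm)⟩
      · exact ⟨a, ha, sub_ne_zero.2 h⟩)
  have hnear := (hsec 0 (mem_ball_self hr)).2.2
  rw [hi'] at hnear
  obtain ⟨V, hV, hy₁V, hVN, hVc⟩ := (Pool.Agent.W63.T4b.main m Y hY hc _ hq1 hq2).2 y₁ hy₁ _ hnear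
  obtain ⟨y₂, hy₂, hy₂V, hy₂'⟩ := hVc.nonempty
  rw [Finset.prod_ne_zero_iff] at hy₂'
  obtain ⟨hv1, hv2⟩ := hVN hy₂V hy₂
  set v : Fin k → ℂ := prm p c₁ y₂ with hvdef
  have hv0 : v ≠ 0 := by
    intro h0
    obtain ⟨γ⟩ := ‹Nonempty Γ›
    apply hy₂' γ (Finset.mem_univ γ)
    rw [← hv2, h0, hi', sub_self]
  obtain ⟨i₀, hi₀⟩ : ∃ i₀, v i₀ ≠ 0 := by
    by_contra hcon
    push Not at hcon
    exact hv0 (funext hcon)
  have hvn : ‖v‖ < r := by simpa using hv1
  have hvn0 : 0 < ‖v‖ := norm_pos_iff.2 hv0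
  -- one variable functions
  let φ : Γ → ℂ → ℂ := fun γ t => f γ (s i (t • v))
  have hmaps : ∀ t ∈ ball (0 : ℂ) (r / ‖v‖), t • v ∈ ball (0 : Fin k → ℂ) r := by
    intro t ht
    rw [mem_ball_zero_iff] at ht ⊢
    rw [norm_smul]
    rwa [lt_div_iff₀ hvn0] at ht
  have h1r : (1 : ℝ) < r / ‖v‖ := by rw [lt_div_iff₀ hvn0, one_mul]; exact hvn
  have hφd : ∀ γ, AnalyticOnNhd ℂ (φ γ) (ball 0 (r / ‖v‖)) := by
    intro γ
    apply DifferentiableOn.analyticOnNhd _ isOpen_ball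
    intro t ht
    obtain ⟨h4, h5, h6⟩ := hsec _ (hmaps t ht)
    obtain ⟨U, hU, haU, g, hg, hfg⟩ := hf γ _ h4
    have hsd : DifferentiableAt ℂ (fun t : ℂ => s i (t • v)) t := by
      have h7 : DifferentiableAt ℂ (s i) (t • v) :=
        (hs i).differentiableAt (isOpen_ball.mem_nhds (hmaps t ht))
      exact DifferentiableAt.comp t h7 (differentiableAt_id.smul_const v)
    have h8 : DifferentiableAt ℂ (fun t : ℂ => g (s i (t • v))) t :=
      DifferentiableAt.comp t (hg.differentiableAt (hU.mem_nhds haU)) hsd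
    refine (h8.congr_of_eventuallyEq ?_).differentiableWithinAt
    filter_upwards [hsd.continuousAt.preimage_mem_nhds (hU.mem_nhds haU),
      isOpen_ball.mem_nhds ht] with t' ht' ht''
    exact (hfg _ (hsec _ (hmaps t' ht'')).1 ht').symm
  have h0mem : (0 : ℂ) ∈ ball (0 : ℂ) (r / ‖v‖) := mem_ball_self (by positivity)
  have h1mem : (1 : ℂ) ∈ ball (0 : ℂ) (r / ‖v‖) := by
    rw [mem_ball_zero_iff, norm_one]; exact h1r
  have hφne : ∀ γ, ∀ᶠ t in 𝓝[≠] (0 : ℂ), deriv (φ γ) t ≠ 0 := by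
    intro γ
    rcases ((hφd γ).deriv 0 h0mem).eventually_eq_zero_or_eventually_ne_zero with h | h
    · exfalso
      have h4 := (hφd γ).deriv.eqOn_zero_of_preconnected_of_eventuallyEq_zero
        isPreconnected_ball h0mem h
      have h5 : φ γ 1 = φ γ 0 :=
        isOpen_ball.is_const_of_deriv_eq_zero isPreconnected_ball
          (hφd γ).differentiableOn h4 h1mem h0mem
      simp only [φ, one_smul, zero_smul] at h5
      rw [hv2, hi'] at h5
      exact hy₂' γ (Finset.mem_univ γ) (by rw [h5, sub_self])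
    · exact h
  have hφdist : ∀ᶠ t in 𝓝 (0 : ℂ), ∀ γ γ', γ ≠ γ' → φ γ t ≠ φ γ' t := by
    rw [eventually_all]; intro γ
    rw [eventually_all]; intro γ'
    by_cases hg : γ = γ'
    · exact Eventually.of_forall fun t h => absurd hg h
    · have hcc : ContinuousAt (fun t => φ γ t - φ γ' t) 0 :=
        (hφd γ 0 h0mem).continuousAt.sub (hφd γ' 0 h0mem).continuousAt
      have h4 : φ γ 0 - φ γ' 0 ≠ 0 := by
        simp only [φ, zero_smul]
        rw [hi', sub_ne_zero]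
        exact hdist₁ γ γ' hg
      filter_upwards [hcc.eventually_ne h4] with t ht _
      exact sub_ne_zero.1 ht
  obtain ⟨t₀, ht₀1, ht₀2, ht₀3⟩ := ((eventually_all.2 hφne).and
    ((eventually_nhdsWithin_of_eventually_nhds hφdist).and
      (eventually_nhdsWithin_of_eventually_nhds (isOpen_ball.eventually_mem h0mem)))).exists
  -- the new centre
  set z₀ : Fin k → ℂ := t₀ • v with hz₀
  have hz₀b : z₀ ∈ ball (0 : Fin k → ℂ) r := hmaps t₀ ht₀3
  obtain ⟨hy₀Y, hy₀pr, hy₀n⟩ := hsec z₀ hz₀b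
  have hprc' : ∀ y, prm p (c₁ + z₀) y = prm p c₁ y - z₀ := by
    intro y; simp only [prm]; rw [sub_sub]
  have hceval : MvPolynomial.eval (c₁ + z₀) δ ≠ 0 := by
    have := (h z₀ hz₀b).1
    rwa [eval_trp, add_comm] at this
  have hcov := cov_of_data ha hd hceval
  have hpr0 : prm p (c₁ + z₀) (s i z₀) = 0 := by rw [hprc', hy₀pr, sub_self]
  have hy₀L : s i z₀ ∈ LineP Y (prm p (c₁ + z₀)) (trp (c₁ + z₀) δ) v :=
    ⟨hy₀Y, 0, by rw [hpr0, zero_smul], by rw [zero_smul]; exact hcov.base⟩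
  refine ⟨c₁ + z₀, v, i₀, s i z₀, mem_connectedComponentIn hy₀L, hceval, hi₀, hy₀Y, hpr0,
    ht₀2, fun γ => ?_⟩
  have hopen := MM_open hcov hi₀ (y₀ := s i z₀)
  have htt0 : tt (prm p (c₁ + z₀)) v i₀ (s i z₀) = 0 := by
    unfold tt; rw [hpr0]; simp
  have hana : AnalyticAt ℂ (fun t => φ γ (t + t₀)) 0 := by
    have h4 : AnalyticAt ℂ (φ γ) (0 + t₀) := by rw [zero_add]; exact hφd γ t₀ ht₀3
    exact h4.comp' (f := fun t => t + t₀) (analyticAt_id.add analyticAt_const)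
  rw [DM_eq hopen (F := fun t => φ γ (t + t₀))]
  · change deriv (fun t => φ γ (t + t₀)) (tt (prm p (c₁ + z₀)) v i₀ (s i z₀)) ≠ 0
    rw [htt0, deriv_comp_add_const, zero_add]
    exact ht₀1 γ
  · change AnalyticAt ℂ (fun t => φ γ (t + t₀)) (tt (prm p (c₁ + z₀)) v i₀ (s i z₀))
    rw [htt0]; exact hana
  · have hcv : Tendsto (fun x : MM Y (prm p (c₁ + z₀)) (trp (c₁ + z₀) δ) v (s i z₀) =>
        (x : Fin m → ℂ)) (𝓝 ⟨s i z₀, mem_connectedComponentIn hy₀L⟩) (𝓝 (s i z₀)) :=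
      continuous_subtype_val.tendsto' _ _ rfl
    have h4 : ∀ᶠ x : MM Y (prm p (c₁ + z₀)) (trp (c₁ + z₀) δ) v (s i z₀) in
        𝓝 ⟨s i z₀, mem_connectedComponentIn hy₀L⟩, (x : Fin m → ℂ) ∈ Y →
          prm p c₁ x ∈ ball 0 r ∧ s i (prm p c₁ x) = x :=
      hcv.eventually hy₀n
    filter_upwards [h4] with x hx
    have hxL := connectedComponentIn_subset _ _ x.2
    obtain ⟨h5, h6⟩ := hx hxL.1
    have h7 := (tt_spec hi₀ hxL).1
    rw [hprc'] at h7
    have h8 : prm p c₁ x = (tt (prm p (c₁ + z₀)) v i₀ x + t₀) • v := by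
      rw [add_smul, ← h7]
      exact (sub_add_cancel _ _).symm
    simp only [φ]
    rw [← h8, h6]

end base

/-- the bound -/
def BB (s : ℕ) : ℕ := 2 ^ ((2 * s + 1) * (2 * s)) * 3 ^ (2 * s)

theorem card_bound (hT1 : S_T1) {m : ℕ} {Y : Set (Fin m → ℂ)} (ha : IsAlg Y)
    (hsm : IsSmooth Y) (hc : IsConnected Y) {s : ℕ} (hr : FiniteRank Y s) {Γ : Type} [Fintype Γ]
    {f : Γ → (Fin m → ℂ) → ℂ} (hf : ∀ γ, HolOn Y (f γ))
    (h01 : ∀ γ, ∀ y ∈ Y, f γ y ≠ 0 ∧ f γ y ≠ 1)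
    (hnc : ∀ γ, ∃ a ∈ Y, ∃ b ∈ Y, f γ a ≠ f γ b)
    (hne : ∀ γ γ', γ ≠ γ' → ∃ y ∈ Y, f γ y ≠ f γ' y) : Fintype.card Γ ≤ BB s := by
  classical
  rcases isEmpty_or_nonempty Γ with hΓ | hΓ
  · simp
  have hY : HasCharts Y := Pool.Agent.W508.T4a.t4a m Y hsm
  obtain ⟨k, e, p, δ, hd⟩ := exists_data hT1 ha hY hc
  obtain ⟨c, v, i₀, y₀, hy₀M, hcδ, hv, hy₀, hpr0, hdist, hDM⟩ := base_point ha hY hc hd hf hnc hne
  have hcov := cov_of_data ha hd hcδ
  have hv0 : v ≠ 0 := fun h => hv (by rw [h]; rfl)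
  obtain ⟨c', κ, Λ, hΛ⟩ := Pool.Agent.W424.T5.proof m k e Y _ _ hcov v
  have hy₀L := connectedComponentIn_subset _ _ hy₀M
  have i1 : ConnectedSpace (MM Y (prm p c) (trp c δ) v y₀) := MM_connected hy₀L
  have i2 : LocallyConnectedSpace (MM Y (prm p c) (trp c δ) v y₀) := MM_locallyConnected hcov hv
  have hτ := MM_continuous hcov v i₀ (y₀ := y₀)
  have hτo := MM_open hcov hv (y₀ := y₀)
  have hMY : ∀ x : MM Y (prm p c) (trp c δ) v y₀, (x : Fin m → ℂ) ∈ Y := fun x =>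
    (connectedComponentIn_subset _ _ x.2).1
  -- the `2 N` functions
  let F : Γ ⊕ Γ → (Fin m → ℂ) → ℂ := Sum.elim (fun γ => f γ) (fun γ y => 1 - f γ y)
  have hF : ∀ l, HolOn Y (F l) := by
    rintro (γ | γ)
    · exact hf γ
    · exact HolOn_sub (HolOn_const 1) (hf γ)
  have hF01 : ∀ l, ∀ y ∈ Y, F l y ≠ 0 ∧ F l y ≠ 1 := by
    rintro (γ | γ) y hy
    · exact h01 γ y hy
    · have := h01 γ y hy
      refine ⟨fun h => this.2 ?_, fun h => this.1 ?_⟩
      · simp only [F, Sum.elim_inr] at h; linear_combination -h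
      · simp only [F, Sum.elim_inr] at h; linear_combination -h
  have hFM : ∀ l, HolM (fun y : MM Y (prm p c) (trp c δ) v y₀ => tt (prm p c) v i₀ y)
      (fun y => F l y) := fun l => MM_hol hcov hv (hF l)
  have hFM0 : ∀ l (x : MM Y (prm p c) (trp c δ) v y₀), F l x ≠ 0 := fun l x =>
    (hF01 l x (hMY x)).1
  let R : (Γ ⊕ Γ → ℤ) → Prop := fun a =>
    HasLog (connectedComponentIn (LineP Y (prm p c) (trp c δ) v) y₀) (fun y => ∏ l, F l y ^ a l)
  obtain ⟨J, hJs, hJ1, hJ2⟩ := exists_indep R (s := s) (by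
    intro j hj
    obtain ⟨b, hb, hlog⟩ := hr (fun i => F (j i)) (fun i => HolOn_continuousOn (hF _))
      (fun i y hy => (hF01 _ y hy).1)
    refine ⟨Function.extend j b 0, ?_, fun l hl => ?_, ?_⟩
    · intro h
      apply hb
      funext i
      have := congrFun h (j i)
      rwa [hj.extend_apply] at this
    · rw [Function.extend_apply' _ _ _ (by rintro ⟨i, hi⟩; exact hl ⟨i, hi⟩)]
      rfl
    · obtain ⟨L, hL, hLe⟩ := hlog
      refine ⟨L, hL.mono fun y hy => (connectedComponentIn_subset _ _ hy).1, fun y hy => ?_⟩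
      rw [hLe y (connectedComponentIn_subset _ _ hy).1]
      refine Fintype.prod_of_injective j hj _ _ (fun l hl => ?_) (fun i => ?_)
      · rw [Function.extend_apply' _ _ _ (by rintro ⟨i, hi⟩; exact hl ⟨i, hi⟩)]
        simp
      · rw [hj.extend_apply])
  let ε : Fin J.card ≃ J := J.equivFin.symm
  -- relations between logarithmic derivatives
  have hrelc : ∀ l, ∃ P : Fin J.card → ℂ, ∀ x : MM Y (prm p c) (trp c δ) v y₀,
      DM (fun y : MM Y (prm p c) (trp c δ) v y₀ => tt (prm p c) v i₀ y) (fun y => F l y) x /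
        F l x = ∑ i, P i * (DM (fun y : MM Y (prm p c) (trp c δ) v y₀ => tt (prm p c) v i₀ y)
          (fun y => F (ε i) y) x / F (ε i) x) := by
    intro l
    by_cases hl : l ∈ J
    · refine ⟨Pi.single (ε.symm ⟨l, hl⟩) 1, fun x => ?_⟩
      rw [Finset.sum_eq_single (ε.symm ⟨l, hl⟩)]
      · simp
      · intro i _ hi
        rw [Pi.single_eq_of_ne hi, zero_mul]
      · intro h; exact absurd (Finset.mem_univ _) h
    · obtain ⟨a, hRa, hal, ha'⟩ := hJ2 l hl
      have hal' : (a l : ℂ) ≠ 0 := by exact_mod_cast hal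
      have hconst := Pool.Agent.W84.T6 m k e Y _ _ hcov v hv0 c' κ Λ hΛ y₀ hy₀ hpr0 (Γ ⊕ Γ) F hF
        hF01 a hRa
      obtain ⟨-, hDp⟩ := prod_zpow (Finset.univ : Finset (Γ ⊕ Γ)) hτo hFM hFM0 a
      refine ⟨fun i => -(a (ε i) : ℂ) / a l, fun x => ?_⟩
      have h1 := hDp x
      have h2 : (fun x : MM Y (prm p c) (trp c δ) v y₀ => ∏ i, F i x ^ a i) =
          fun _ => ∏ i, F i y₀ ^ a i := by
        funext x
        exact hconst x x.2
      rw [h2, DM_const hτo] at h1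
      have h3 : ∏ i, F i x ^ a i ≠ 0 :=
        Finset.prod_ne_zero_iff.2 fun i _ => zpow_ne_zero _ (hFM0 i x)
      have h4 := (mul_eq_zero.1 h1.symm).resolve_right h3
      -- split the sum
      have h5 : ∑ i, (a i : ℂ) * (DM (fun y : MM Y (prm p c) (trp c δ) v y₀ =>
          tt (prm p c) v i₀ y) (fun y => F i y) x / F i x) =
          (a l : ℂ) * (DM (fun y : MM Y (prm p c) (trp c δ) v y₀ =>
          tt (prm p c) v i₀ y) (fun y => F l y) x / F l x) +
          ∑ i ∈ J, (a i : ℂ) * (DM (fun y : MM Y (prm p c) (trp c δ) v y₀ =>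
          tt (prm p c) v i₀ y) (fun y => F i y) x / F i x) := by
        rw [← Finset.sum_insert (f := fun i => (a i : ℂ) * (DM (fun y : MM Y (prm p c) (trp c δ) v
          y₀ => tt (prm p c) v i₀ y) (fun y => F i y) x / F i x)) hl]
        refine (Finset.sum_subset (Finset.subset_univ _) fun i _ hi => ?_).symm
        rw [Finset.mem_insert, not_or] at hi
        rw [ha' i hi.2 hi.1]
        simp
      rw [h5] at h4
      have h6 : ∑ i ∈ J, (a i : ℂ) * (DM (fun y : MM Y (prm p c) (trp c δ) v y₀ =>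
          tt (prm p c) v i₀ y) (fun y => F i y) x / F i x) =
          ∑ i : Fin J.card, (a (ε i) : ℂ) * (DM (fun y : MM Y (prm p c) (trp c δ) v y₀ =>
          tt (prm p c) v i₀ y) (fun y => F (ε i) y) x / F (ε i) x) := by
        rw [← Finset.sum_coe_sort J]
        exact (Equiv.sum_comp ε (fun i : J => (a i : ℂ) * (DM (fun y : MM Y (prm p c) (trp c δ) v
          y₀ => tt (prm p c) v i₀ y) (fun y => F i y) x / F i x))).symm
      rw [h6] at h4
      have h7 : ∀ i : Fin J.card, -(a (ε i) : ℂ) / a l * (DM (fun y : MM Y (prm p c) (trp c δ) v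
          y₀ => tt (prm p c) v i₀ y) (fun y => F (ε i) y) x / F (ε i) x) =
          (-1 / (a l : ℂ)) * ((a (ε i) : ℂ) * (DM (fun y : MM Y (prm p c) (trp c δ) v
          y₀ => tt (prm p c) v i₀ y) (fun y => F (ε i) y) x / F (ε i) x)) := fun i => by ring
      simp_rw [h7]
      rw [← Finset.mul_sum]
      set A := ∑ i : Fin J.card, (a (ε i) : ℂ) * (DM (fun y : MM Y (prm p c) (trp c δ) v
          y₀ => tt (prm p c) v i₀ y) (fun y => F (ε i) y) x / F (ε i) x)
      set B := DM (fun y : MM Y (prm p c) (trp c δ) v y₀ =>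
          tt (prm p c) v i₀ y) (fun y => F l y) x / F l x
      have h8 : A = -(a l : ℂ) * B := by linear_combination h4
      rw [h8]
      field_simp
  choose P hP using hrelc
  have hcard := count (n := J.card) hτ hτo
    (u := fun i (x : MM Y (prm p c) (trp c δ) v y₀) => F (ε i) x)
    (fun i => hFM _) (fun i x => hFM0 _ x) (by
      intro b hb hlog
      apply hb
      let a : Γ ⊕ Γ → ℤ := fun l => if hl : l ∈ J then b (ε.symm ⟨l, hl⟩) else 0
      have ha0 : a = 0 := by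
        apply hJ1
        · intro l hl
          simp only [a, dif_neg hl]
        · refine hasLog_iff.2 ?_
          obtain ⟨h, hh, he⟩ := hlog
          refine ⟨h, hh, fun x => ?_⟩
          rw [he x]
          refine Fintype.prod_of_injective (fun i : Fin J.card => ((ε i : J) : Γ ⊕ Γ)) ?_ _ _ ?_ ?_
          · intro i i' h
            exact ε.injective (Subtype.ext h)
          · intro l hl
            have hlJ : l ∉ J := fun hlJ => hl ⟨ε.symm ⟨l, hlJ⟩, by simp⟩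
            simp only [a, dif_neg hlJ, zpow_zero]
          · intro i
            simp only [a, dif_pos (ε i).2]
            congr 2
            simp
      funext i
      have h1 := congrFun ha0 (ε i : Γ ⊕ Γ)
      simp only [a, dif_pos (ε i).2] at h1
      simpa using h1)
    ⟨y₀, hy₀M⟩ (Γ := Γ) (g := fun γ x => f γ x) (fun γ => hFM (Sum.inl γ))
    (fun γ x => hFM0 (Sum.inl γ) x) (fun γ x => (h01 γ x (hMY x)).2) hDM
    (fun γ γ' h => hdist γ γ' h) (p := fun γ => P (Sum.inl γ)) (q := fun γ => P (Sum.inr γ))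
    (fun γ x => hP (Sum.inl γ) x) (fun γ x => by
      have h1 := hP (Sum.inr γ) x
      simp only [F, Sum.elim_inr] at h1
      have hfM : HolM (fun y : MM Y (prm p c) (trp c δ) v y₀ => tt (prm p c) v i₀ y)
        (fun y => f γ y) := hFM (Sum.inl γ)
      rw [DM_sub hτo (HolM.const 1) hfM, DM_const hτo, zero_sub] at h1
      exact h1)
  refine hcard.trans ?_
  unfold BB
  have h1 : 2 * J.card ≤ 2 * s := by omega
  exact Nat.mul_le_mul (Nat.pow_le_pow_right (by norm_num) (Nat.mul_le_mul (by omega) h1))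
    (Nat.pow_le_pow_right (by norm_num) h1)

end W489
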