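import Pool.Agent.Helper113.Gorin.Defs

/-!
Statements (as propositions) of the pieces of the proof of frozen statement S00329
(problem MP_9bd952_ag). The definitions `IsAlg`, `IsSmooth`, `HolOn`, `HasCharts`, `HasLog`,
`FiniteRank`, `Cov`, `Sp`, `Adm`, `EndsAt`, `EndLift` are those of
`Pool.Agent.Helper113.Gorin.Defs`.
-/

set_option autoImplicit false

open Metric Set Topology

namespace W489

open H113G

/-- the part over `{δ ≠ 0}` of the curve `Y ∩ pr⁻¹ (ℂ v)` -/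
def LineP {m k : ℕ} (Y : Set (Fin m → ℂ)) (pr : (Fin m → ℂ) → (Fin k → ℂ))
    (δ : MvPolynomial (Fin k) ℂ) (v : Fin k → ℂ) : Set (Fin m → ℂ) :=
  {y | y ∈ Y ∧ ∃ t : ℂ, pr y = t • v ∧ MvPolynomial.eval (t • v) δ ≠ 0}

/-- the part of `Y` over `{δ ≠ 0}` -/
def OpenP {m k : ℕ} (Y : Set (Fin m → ℂ)) (pr : (Fin m → ℂ) → (Fin k → ℂ))
    (δ : MvPolynomial (Fin k) ℂ) : Set (Fin m → ℂ) :=
  {y | y ∈ Y ∧ MvPolynomial.eval (pr y) δ ≠ 0}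

/-- T1: an irreducible affine algebraic set is a finite cover of an affine space,
unramified over a nonempty Zariski open set -/
def S_T1 : Prop :=
  ∀ (m : ℕ) (Y : Set (Fin m → ℂ)), IsAlg Y → Y.Nonempty →
    (∀ P Q : MvPolynomial (Fin m) ℂ, (∀ y ∈ Y, MvPolynomial.eval y (P * Q) = 0) →
      (∀ y ∈ Y, MvPolynomial.eval y P = 0) ∨ (∀ y ∈ Y, MvPolynomial.eval y Q = 0)) →
    ∃ (k e : ℕ) (p : Fin k → MvPolynomial (Fin m) ℂ) (δ : MvPolynomial (Fin k) ℂ), δ ≠ 0 ∧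
      (∀ R : ℝ, ∃ R' : ℝ, ∀ y ∈ Y, (∀ i, ‖MvPolynomial.eval y (p i)‖ ≤ R) → ‖y‖ ≤ R') ∧
      (∀ D : MvPolynomial (Fin k) ℂ, D ≠ 0 → ∃ y ∈ Y,
        MvPolynomial.eval (fun i => MvPolynomial.eval y (p i)) D ≠ 0) ∧
      (∀ z : Fin k → ℂ, MvPolynomial.eval z δ ≠ 0 → ∃ r : ℝ, 0 < r ∧
        ∃ s : Fin e → (Fin k → ℂ) → (Fin m → ℂ),
          (∀ i, DifferentiableOn ℂ (s i) (ball z r)) ∧
          ∀ z' ∈ ball z r, MvPolynomial.eval z' δ ≠ 0 ∧ Function.Injective (fun i => s i z') ∧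
            {y | y ∈ Y ∧ (fun i => MvPolynomial.eval y (p i)) = z'} = Set.range (fun i => s i z'))

/-- T2: the roots of `t ↦ δ (t z)` are locally distinct continuous functions of `z`, for `z` in a
nonempty Zariski open set -/
def S_T2 : Prop :=
  ∀ (k : ℕ) (δ : MvPolynomial (Fin k) ℂ), MvPolynomial.eval (0 : Fin k → ℂ) δ ≠ 0 →
    ∃ D : MvPolynomial (Fin k) ℂ, D ≠ 0 ∧
      ∀ z : Fin k → ℂ, MvPolynomial.eval z D ≠ 0 → ∃ (N : ℕ) (ε : ℝ) (b : Fin N → (Fin k → ℂ) → ℂ),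
        0 < ε ∧ (∀ i, ContinuousOn (b i) (ball z ε)) ∧
        ∀ z' ∈ ball z ε, Function.Injective (fun i => b i z') ∧
          ∀ t : ℂ, MvPolynomial.eval (t • z') δ = 0 ↔ ∃ i, t = b i z'

/-- T3: Lefschetz type theorem for the pencil of lines through the origin -/
def S_T3 : Prop :=
  ∀ (k : ℕ) (δ D : MvPolynomial (Fin k) ℂ), MvPolynomial.eval (0 : Fin k → ℂ) δ ≠ 0 → D ≠ 0 →
    (∀ z : Fin k → ℂ, MvPolynomial.eval z D ≠ 0 → ∃ (N : ℕ) (ε : ℝ) (b : Fin N → (Fin k → ℂ) → ℂ),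
        0 < ε ∧ (∀ i, ContinuousOn (b i) (ball z ε)) ∧
        ∀ z' ∈ ball z ε, Function.Injective (fun i => b i z') ∧
          ∀ t : ℂ, MvPolynomial.eval (t • z') δ = 0 ↔ ∃ i, t = b i z') →
    ∀ (W : Type) [TopologicalSpace W] (q : W → Sp δ), IsCoveringMap q →
      ∀ w₀ : W, (q w₀).1 = 0 → ∀ w ∈ connectedComponent w₀, MvPolynomial.eval (q w).1 D ≠ 0 →
        EndsAt q w₀ w (q w).1 1

/-- T4a: a complex submanifold has small charts -/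
def S_T4a : Prop := ∀ (m : ℕ) (Y : Set (Fin m → ℂ)), IsSmooth Y → HasCharts Y

/-- T4b: the complement of the zero set of a holomorphic function is connected, also locally -/
def S_T4b : Prop :=
  ∀ (m : ℕ) (Y : Set (Fin m → ℂ)), HasCharts Y → IsConnected Y →
    ∀ f : (Fin m → ℂ) → ℂ, HolOn Y f → (∃ y ∈ Y, f y ≠ 0) →
      IsConnected {y | y ∈ Y ∧ f y ≠ 0} ∧
      ∀ p ∈ Y, ∀ N ∈ 𝓝 p, ∃ V : Set (Fin m → ℂ), IsOpen V ∧ p ∈ V ∧ V ⊆ N ∧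
        IsConnected {y | y ∈ Y ∧ y ∈ V ∧ f y ≠ 0}

/-- T5: lifts of a line near infinity -/
def S_T5 : Prop :=
  ∀ (m k e : ℕ) (Y : Set (Fin m → ℂ)) (pr : (Fin m → ℂ) → (Fin k → ℂ))
    (δ : MvPolynomial (Fin k) ℂ), Cov Y pr δ e → ∀ v : Fin k → ℂ,
    ∃ (c : ℝ) (κ : ℕ) (Λ : Fin e → ℂ → (Fin m → ℂ)), EndLift Y pr δ e v c κ Λ

/-- T6: a product of powers of functions omitting `0` and `1` that has a logarithm on a component
of the curve is constant there -/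
def S_T6 : Prop :=
  ∀ (m k e : ℕ) (Y : Set (Fin m → ℂ)) (pr : (Fin m → ℂ) → (Fin k → ℂ))
    (δ : MvPolynomial (Fin k) ℂ), Cov Y pr δ e → ∀ (v : Fin k → ℂ), v ≠ 0 →
    ∀ (c : ℝ) (κ : ℕ) (Λ : Fin e → ℂ → (Fin m → ℂ)), EndLift Y pr δ e v c κ Λ →
    ∀ y₀ ∈ Y, pr y₀ = 0 →
    ∀ (ι : Type) [Fintype ι] (f : ι → (Fin m → ℂ) → ℂ), (∀ l, HolOn Y (f l)) →
      (∀ l, ∀ y ∈ Y, f l y ≠ 0 ∧ f l y ≠ 1) → ∀ a : ι → ℤ,
      HasLog (connectedComponentIn (LineP Y pr δ v) y₀) (fun y => ∏ l, f l y ^ a l) →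
      ∀ y ∈ connectedComponentIn (LineP Y pr δ v) y₀, ∏ l, f l y ^ a l = ∏ l, f l y₀ ^ a l

/-- T7: finite rank on a line -/
def S_T7 : Prop :=
  ∀ (m k e : ℕ) (Y : Set (Fin m → ℂ)) (pr : (Fin m → ℂ) → (Fin k → ℂ))
    (δ : MvPolynomial (Fin k) ℂ), Cov Y pr δ e → ∀ v : Fin k → ℂ,
    ∃ s : ℕ, FiniteRank (LineP Y pr δ v) s

/-- T8: a function with a logarithm on a general line has a logarithm -/
def S_T8 : Prop :=
  ∀ (m k e : ℕ) (Y : Set (Fin m → ℂ)) (pr : (Fin m → ℂ) → (Fin k → ℂ))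
    (δ : MvPolynomial (Fin k) ℂ), Cov Y pr δ e → IsConnected (OpenP Y pr δ) →
    ∃ v : Fin k → ℂ, ∀ g : (Fin m → ℂ) → ℂ, ContinuousOn g (OpenP Y pr δ) →
      (∀ y ∈ OpenP Y pr δ, g y ≠ 0) → HasLog (LineP Y pr δ v) g → HasLog (OpenP Y pr δ) g

/-- T9: extension of a logarithm across the zero set of a holomorphic function -/
def S_T9 : Prop :=
  ∀ (m : ℕ) (Y : Set (Fin m → ℂ)), HasCharts Y → IsConnected Y →
    ∀ f : (Fin m → ℂ) → ℂ, HolOn Y f → (∃ y ∈ Y, f y ≠ 0) →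
    ∀ g : (Fin m → ℂ) → ℂ, ContinuousOn g Y → (∀ y ∈ Y, g y ≠ 0) →
      HasLog {y | y ∈ Y ∧ f y ≠ 0} g → HasLog Y g

end W489
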