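import Pool.Agent.W489.Stubs
import Pool.Agent.W488.T2.Main
import Pool.Agent.W2.Lef
import Pool.Agent.W508.T4a
import Pool.Agent.W63.T4b
import Pool.Agent.W867.T7
import Pool.Agent.W382.G8
import Pool.Agent.W415.G.T9

/-!
Finite rank of the continuous units of a connected affine algebraic manifold, modulo exponentials.
-/

set_option autoImplicit false

open Metric Set Topology

namespace W489

open H113G

section hol

variable {m : ℕ} {Y : Set (Fin m → ℂ)} {f g : (Fin m → ℂ) → ℂ}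

theorem holOn_of_diff (hf : Differentiable ℂ f) : HolOn Y f := fun _ _ =>
  ⟨univ, isOpen_univ, mem_univ _, f, hf.differentiableOn, fun _ _ _ => rfl⟩

theorem HolOn_sub (hf : HolOn Y f) (hg : HolOn Y g) : HolOn Y (fun y => f y - g y) := by
  intro p hp
  obtain ⟨U, hU, hpU, h, hh, hfh⟩ := hf p hp
  obtain ⟨U', hU', hpU', h', hh', hgh⟩ := hg p hp
  refine ⟨U ∩ U', hU.inter hU', ⟨hpU, hpU'⟩, fun y => h y - h' y,
    (hh.mono inter_subset_left).sub (hh'.mono inter_subset_right), fun y hy hyU => ?_⟩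
  beta_reduce
  rw [hfh y hy hyU.1, hgh y hy hyU.2]

theorem HolOn_mul (hf : HolOn Y f) (hg : HolOn Y g) : HolOn Y (fun y => f y * g y) := by
  intro p hp
  obtain ⟨U, hU, hpU, h, hh, hfh⟩ := hf p hp
  obtain ⟨U', hU', hpU', h', hh', hgh⟩ := hg p hp
  refine ⟨U ∩ U', hU.inter hU', ⟨hpU, hpU'⟩, fun y => h y * h' y,
    (hh.mono inter_subset_left).mul (hh'.mono inter_subset_right), fun y hy hyU => ?_⟩
  beta_reduce
  rw [hfh y hy hyU.1, hgh y hy hyU.2]

theorem HolOn_const (c : ℂ) : HolOn Y (fun _ => c) := holOn_of_diff (differentiable_const c)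

theorem HolOn_continuousOn (hf : HolOn Y f) : ContinuousOn f Y := by
  intro p hp
  obtain ⟨U, hU, hpU, h, hh, hfh⟩ := hf p hp
  have h1 : ContinuousWithinAt h Y p :=
    ((hh.differentiableAt (hU.mem_nhds hpU)).continuousAt).continuousWithinAt
  refine h1.congr_of_eventuallyEq ?_ (hfh p hp hpU).symm
  filter_upwards [inter_mem_nhdsWithin Y (hU.mem_nhds hpU)] with y hy
  exact (hfh y hy.1 hy.2).symm

theorem differentiable_eval (P : MvPolynomial (Fin m) ℂ) :
    Differentiable ℂ (fun y : Fin m → ℂ => MvPolynomial.eval y P) := by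
  induction P using MvPolynomial.induction_on with
  | C a => simp
  | add p q hp hq =>
    simp only [map_add]
    exact hp.fun_add hq
  | mul_X p i hp =>
    simp only [map_mul, MvPolynomial.eval_X]
    exact hp.mul (differentiable_apply i)

theorem mul_ne (hY : HasCharts Y) (hc : IsConnected Y) (hf : HolOn Y f) (hg : HolOn Y g)
    (hf0 : ∃ y ∈ Y, f y ≠ 0) (hg0 : ∃ y ∈ Y, g y ≠ 0) : ∃ y ∈ Y, f y * g y ≠ 0 := by
  obtain ⟨p, hp, hgp⟩ := hg0
  have h1 := (Pool.Agent.W63.T4b.main m Y hY hc f hf hf0).2 p hp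
  have h2 : ∀ᶠ y in 𝓝[Y] p, g y ≠ 0 := (HolOn_continuousOn hg p hp).eventually_ne hgp
  rw [eventually_nhdsWithin_iff] at h2
  obtain ⟨V, hV, hpV, hVN, hVc⟩ := h1 _ h2
  obtain ⟨y, hy, hyV, hfy⟩ := hVc.nonempty
  exact ⟨y, hy, mul_ne_zero hfy (hVN hyV hy)⟩

theorem prod_ne {ι : Type*} (s : Finset ι) {F : ι → (Fin m → ℂ) → ℂ} (hY : HasCharts Y)
    (hc : IsConnected Y) (hF : ∀ i ∈ s, HolOn Y (F i)) (hF0 : ∀ i ∈ s, ∃ y ∈ Y, F i y ≠ 0) :
    HolOn Y (fun y => ∏ i ∈ s, F i y) ∧ ∃ y ∈ Y, ∏ i ∈ s, F i y ≠ 0 := by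
  classical
  induction s using Finset.induction_on with
  | empty =>
    refine ⟨by simpa using HolOn_const (Y := Y) 1, ?_⟩
    obtain ⟨y, hy⟩ := hc.nonempty
    exact ⟨y, hy, by simp⟩
  | insert a s ha ih =>
    obtain ⟨h1, h2⟩ := ih (fun i hi => hF i (Finset.mem_insert_of_mem hi))
      (fun i hi => hF0 i (Finset.mem_insert_of_mem hi))
    have ha1 := hF a (Finset.mem_insert_self a s)
    have ha2 := hF0 a (Finset.mem_insert_self a s)
    simp_rw [Finset.prod_insert ha]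
    exact ⟨HolOn_mul ha1 h1, mul_ne hY hc ha1 h1 ha2 h2⟩

end hol

/-- translation of a polynomial -/
noncomputable def trp {k : ℕ} (c : Fin k → ℂ) (D : MvPolynomial (Fin k) ℂ) :
    MvPolynomial (Fin k) ℂ :=
  MvPolynomial.aeval (fun i => MvPolynomial.X i + MvPolynomial.C (c i)) D

theorem eval_trp {k : ℕ} (c z : Fin k → ℂ) (D : MvPolynomial (Fin k) ℂ) :
    MvPolynomial.eval z (trp c D) = MvPolynomial.eval (z + c) D := by
  unfold trp
  induction D using MvPolynomial.induction_on with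
  | C a => simp [MvPolynomial.algebraMap_eq]
  | add p q hp hq => simp only [map_add, hp, hq]
  | mul_X p i hp => simp only [map_mul, hp, MvPolynomial.aeval_X, map_add, MvPolynomial.eval_X,
      MvPolynomial.eval_C, Pi.add_apply]

theorem trp_ne {k : ℕ} (c : Fin k → ℂ) {D : MvPolynomial (Fin k) ℂ} (hD : D ≠ 0) :
    trp c D ≠ 0 := by
  intro h
  apply hD
  apply MvPolynomial.funext
  intro z
  have h1 := eval_trp c (z - c) D
  rw [h, sub_add_cancel] at h1
  rw [← h1]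
  simp

/-- the output of T1 -/
def Data {m k : ℕ} (Y : Set (Fin m → ℂ)) (p : Fin k → MvPolynomial (Fin m) ℂ)
    (δ : MvPolynomial (Fin k) ℂ) (e : ℕ) : Prop :=
  δ ≠ 0 ∧
      (∀ R : ℝ, ∃ R' : ℝ, ∀ y ∈ Y, (∀ i, ‖MvPolynomial.eval y (p i)‖ ≤ R) → ‖y‖ ≤ R') ∧
      (∀ D : MvPolynomial (Fin k) ℂ, D ≠ 0 → ∃ y ∈ Y,
        MvPolynomial.eval (fun i => MvPolynomial.eval y (p i)) D ≠ 0) ∧
      (∀ z : Fin k → ℂ, MvPolynomial.eval z δ ≠ 0 → ∃ r : ℝ, 0 < r ∧
        ∃ s : Fin e → (Fin k → ℂ) → (Fin m → ℂ),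
          (∀ i, DifferentiableOn ℂ (s i) (ball z r)) ∧
          ∀ z' ∈ ball z r, MvPolynomial.eval z' δ ≠ 0 ∧ Function.Injective (fun i => s i z') ∧
            {y | y ∈ Y ∧ (fun i => MvPolynomial.eval y (p i)) = z'} = Set.range (fun i => s i z'))

/-- the polynomial map -/
noncomputable def prm {m k : ℕ} (p : Fin k → MvPolynomial (Fin m) ℂ) (c : Fin k → ℂ) :
    (Fin m → ℂ) → (Fin k → ℂ) := fun y => (fun i => MvPolynomial.eval y (p i)) - c

theorem isClosed_of_alg {m : ℕ} {Y : Set (Fin m → ℂ)} (ha : IsAlg Y) : IsClosed Y := by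
  obtain ⟨S, rfl⟩ := ha
  have : {y : Fin m → ℂ | ∀ P ∈ S, MvPolynomial.eval y P = 0} =
      ⋂ P ∈ S, {y | MvPolynomial.eval y P = 0} := by
    ext y; simp
  rw [this]
  exact isClosed_biInter fun P _ => isClosed_eq (differentiable_eval P).continuous
    continuous_const

theorem cov_of_data {m k e : ℕ} {Y : Set (Fin m → ℂ)} (ha : IsAlg Y)
    {p : Fin k → MvPolynomial (Fin m) ℂ} {δ : MvPolynomial (Fin k) ℂ} (hd : Data Y p δ e)
    {c : Fin k → ℂ} (hc : MvPolynomial.eval c δ ≠ 0) : Cov Y (prm p c) (trp c δ) e where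
  closed := isClosed_of_alg ha
  diff := by
    unfold prm
    exact (differentiable_pi.2 fun i => differentiable_eval (p i)).sub_const c
  base := by rw [eval_trp, zero_add]; exact hc
  proper := by
    intro R
    obtain ⟨R', hR'⟩ := hd.2.1 (R + ‖c‖)
    refine ⟨R', fun y hy hyR => hR' y hy fun i => ?_⟩
    have h1 : ‖prm p c y i‖ ≤ R := (norm_le_pi_norm _ i).trans hyR
    have h2 : MvPolynomial.eval y (p i) = prm p c y i + c i := by simp [prm]
    rw [h2]
    exact (norm_add_le _ _).trans (add_le_add h1 (norm_le_pi_norm c i))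
  dominant := by
    intro D hD
    obtain ⟨y, hy, h⟩ := hd.2.2.1 (trp (-c) D) (trp_ne _ hD)
    refine ⟨y, hy, ?_⟩
    rw [eval_trp] at h
    simpa [prm, sub_eq_add_neg] using h
  sections := by
    intro z hz
    rw [eval_trp] at hz
    obtain ⟨r, hr, s, hs, h⟩ := hd.2.2.2 (z + c) hz
    refine ⟨r, hr, fun i z' => s i (z' + c), fun i => ?_, fun z' hz' => ?_⟩
    · refine (hs i).comp (differentiable_id.add_const c).differentiableOn ?_
      intro z' hz'
      simpa [mem_ball, dist_add_right] using hz'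
    · have hz'' : z' + c ∈ ball (z + c) r := by simpa [mem_ball, dist_add_right] using hz'
      obtain ⟨h1, h2, h3⟩ := h _ hz''
      refine ⟨by rw [eval_trp]; exact h1, h2, ?_⟩
      rw [← h3]
      ext y
      simp only [mem_ofPred_eq, prm]
      constructor
      · rintro ⟨hy, h4⟩
        exact ⟨hy, by rw [← h4, sub_add_cancel]⟩
      · rintro ⟨hy, h4⟩
        exact ⟨hy, by rw [h4, add_sub_cancel_right]⟩

theorem exists_data (hT1 : S_T1) {m : ℕ} {Y : Set (Fin m → ℂ)} (ha : IsAlg Y)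
    (hY : HasCharts Y) (hc : IsConnected Y) :
    ∃ (k e : ℕ) (p : Fin k → MvPolynomial (Fin m) ℂ) (δ : MvPolynomial (Fin k) ℂ),
      Data Y p δ e := by
  refine hT1 m Y ha hc.nonempty ?_
  intro P Q hPQ
  by_contra hcon
  push Not at hcon
  obtain ⟨⟨y, hy, hy'⟩, ⟨y', hy1, hy2⟩⟩ := hcon
  obtain ⟨w, hw, hw'⟩ := mul_ne hY hc (holOn_of_diff (differentiable_eval P))
    (holOn_of_diff (differentiable_eval Q)) ⟨y, hy, hy'⟩ ⟨y', hy1, hy2⟩
  apply hw'
  rw [← map_mul]
  exact hPQ w hw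

/-- finite rank -/
theorem finite_rank (hT1 : S_T1) {m : ℕ} {Y : Set (Fin m → ℂ)} (ha : IsAlg Y)
    (hs : IsSmooth Y) (hc : IsConnected Y) : ∃ s : ℕ, FiniteRank Y s := by
  have hY : HasCharts Y := Pool.Agent.W508.T4a.t4a m Y hs
  obtain ⟨k, e, p, δ, hd⟩ := exists_data hT1 ha hY hc
  obtain ⟨y, hy, hyδ⟩ := hd.2.2.1 δ hd.1
  set c : Fin k → ℂ := fun i => MvPolynomial.eval y (p i) with hcdef
  have hcov := cov_of_data ha hd hyδ
  have hhol : HolOn Y (fun y => MvPolynomial.eval (prm p c y) (trp c δ)) :=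
    holOn_of_diff ((differentiable_eval (trp c δ)).comp hcov.diff)
  have hne : ∃ y ∈ Y, MvPolynomial.eval (prm p c y) (trp c δ) ≠ 0 :=
    hcov.dominant _ (trp_ne _ hd.1)
  have hconn : IsConnected (OpenP Y (prm p c) (trp c δ)) :=
    (Pool.Agent.W63.T4b.main m Y hY hc _ hhol hne).1
  obtain ⟨v, hv⟩ := Pool.Agent.W382.G8.T8 Pool.Agent.W488.T2.s_T2 Pool.Agent.W2.Lef.lefschetz
    m k e Y (prm p c) (trp c δ) hcov hconn
  obtain ⟨s, hs⟩ := Pool.Agent.W867.T7 m k e Y (prm p c) (trp c δ) hcov v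
  refine ⟨s, fun g hg hg0 => ?_⟩
  have hsub : LineP Y (prm p c) (trp c δ) v ⊆ Y := fun y hy => hy.1
  obtain ⟨a, ha0, hlog⟩ := hs g (fun l => (hg l).mono hsub) (fun l y hy => hg0 l y (hsub hy))
  refine ⟨a, ha0, ?_⟩
  have hcont : ContinuousOn (fun y => ∏ l, g l y ^ a l) Y := by
    refine continuousOn_finsetProd _ fun l _ => ?_
    exact (hg l).zpow₀ _ fun y hy => Or.inl (hg0 l y hy)
  have hne0 : ∀ y ∈ Y, ∏ l, g l y ^ a l ≠ 0 := fun y hy =>
    Finset.prod_ne_zero_iff.2 fun l _ => zpow_ne_zero _ (hg0 l y hy)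
  have h1 := hv (fun y => ∏ l, g l y ^ a l) (hcont.mono fun y hy => hy.1)
    (fun y hy => hne0 y hy.1) hlog
  exact Pool.Agent.W415.G.T9 Pool.Agent.W63.T4b.main m Y hY hc _ hhol hne _ hcont hne0 h1

/-- finite rank is a topological invariant -/
theorem finiteRank_homeo {n m : ℕ} {X : Set (Fin n → ℂ)} {Y : Set (Fin m → ℂ)} (φ : X ≃ₜ Y)
    {s : ℕ} (h : FiniteRank X s) : FiniteRank Y s := by
  classical
  intro g hg hg0
  let g' : Fin (s + 1) → (Fin n → ℂ) → ℂ := fun l x =>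
    if hx : x ∈ X then g l (φ ⟨x, hx⟩) else 1
  have hg' : ∀ l, ContinuousOn (g' l) X := by
    intro l
    rw [continuousOn_iff_continuous_domRestrict]
    have h1 : X.domRestrict (g' l) = fun x => (Y.domRestrict (g l)) (φ x) := by
      funext x
      simp only [domRestrict_apply, g', dif_pos x.2]
    rw [h1]
    exact (continuousOn_iff_continuous_domRestrict.1 (hg l)).comp φ.continuous
  obtain ⟨a, ha, L, hL, hLe⟩ := h g' hg' (fun l x hx => by
    simp only [g', dif_pos hx]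
    exact hg0 l _ (φ ⟨x, hx⟩).2)
  refine ⟨a, ha, fun y => if hy : y ∈ Y then L (φ.symm ⟨y, hy⟩) else 0, ?_, ?_⟩
  · rw [continuousOn_iff_continuous_domRestrict]
    have h1 : Y.domRestrict (fun y => if hy : y ∈ Y then L (φ.symm ⟨y, hy⟩) else 0) =
        fun y => (X.domRestrict L) (φ.symm y) := by
      funext y
      simp only [domRestrict_apply, dif_pos y.2]
    rw [h1]
    exact (continuousOn_iff_continuous_domRestrict.1 hL).comp φ.symm.continuous
  · intro y hy
    simp only [dif_pos hy]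
    rw [hLe _ (φ.symm ⟨y, hy⟩).2]
    refine Finset.prod_congr rfl fun l _ => ?_
    simp only [g', dif_pos (φ.symm ⟨y, hy⟩).2, Subtype.coe_eta, Homeomorph.apply_symm_apply]

end W489
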