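import Mathlib

/-!
Holomorphic functions on a space `M` with a continuous open map `τ : M → ℂ`.
-/

set_option autoImplicit false

open Set Topology Filter

namespace W489

section

variable {M : Type} [TopologicalSpace M]

/-- `f` is locally a holomorphic function of `τ` -/
def HolM (τ : M → ℂ) (f : M → ℂ) : Prop :=
  ∀ w : M, ∃ F : ℂ → ℂ, AnalyticAt ℂ F (τ w) ∧ ∀ᶠ x in 𝓝 w, f x = F (τ x)

open Classical in
/-- the derivative of `f` with respect to `τ` -/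
noncomputable def DM (τ : M → ℂ) (f : M → ℂ) (w : M) : ℂ :=
  if h : ∃ F : ℂ → ℂ, AnalyticAt ℂ F (τ w) ∧ ∀ᶠ x in 𝓝 w, f x = F (τ x) then
    deriv h.choose (τ w) else 0

variable {τ : M → ℂ}

theorem ev_of_ev (hτo : IsOpenMap τ) {w : M} {p : ℂ → Prop} (h : ∀ᶠ x in 𝓝 w, p (τ x)) :
    ∀ᶠ t in 𝓝 (τ w), p t :=
  hτo.nhds_le w h

theorem DM_eq (hτo : IsOpenMap τ) {f : M → ℂ} {w : M} {F : ℂ → ℂ} (hF : AnalyticAt ℂ F (τ w))
    (h : ∀ᶠ x in 𝓝 w, f x = F (τ x)) : DM τ f w = deriv F (τ w) := by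
  have hex : ∃ F : ℂ → ℂ, AnalyticAt ℂ F (τ w) ∧ ∀ᶠ x in 𝓝 w, f x = F (τ x) := ⟨F, hF, h⟩
  unfold DM
  rw [dif_pos hex]
  have h2 := hex.choose_spec.2
  apply Filter.EventuallyEq.deriv_eq
  apply ev_of_ev hτo (p := fun t => hex.choose t = F t)
  filter_upwards [h, h2] with x hx hx'
  rw [← hx, ← hx']

theorem HolM.continuous (hτ : Continuous τ) {f : M → ℂ} (hf : HolM τ f) : Continuous f := by
  rw [continuous_iff_continuousAt]
  intro w
  obtain ⟨F, hF, h⟩ := hf w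
  exact ContinuousAt.congr (f := fun x => F (τ x))
    (ContinuousAt.comp (g := F) hF.continuousAt hτ.continuousAt) (h.mono fun x hx => hx.symm)

theorem DM_near (hτ : Continuous τ) (hτo : IsOpenMap τ) {f : M → ℂ} {w : M} {F : ℂ → ℂ}
    (hF : AnalyticAt ℂ F (τ w)) (h : ∀ᶠ x in 𝓝 w, f x = F (τ x)) :
    ∀ᶠ x in 𝓝 w, DM τ f x = deriv F (τ x) := by
  have h1 : ∀ᶠ x in 𝓝 w, AnalyticAt ℂ F (τ x) :=
    hτ.continuousAt.eventually hF.eventually_analyticAt
  filter_upwards [h1, h.eventually_nhds] with x hx hx'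
  exact DM_eq hτo hx hx'

theorem HolM.DM (hτ : Continuous τ) (hτo : IsOpenMap τ) {f : M → ℂ} (hf : HolM τ f) :
    HolM τ (DM τ f) := by
  intro w
  obtain ⟨F, hF, h⟩ := hf w
  exact ⟨deriv F, hF.deriv, DM_near hτ hτo hF h⟩

theorem HolM.const (c : ℂ) : HolM τ (fun _ : M => c) :=
  fun _ => ⟨fun _ => c, analyticAt_const, Eventually.of_forall fun _ => rfl⟩

theorem HolM.add {f g : M → ℂ} (hf : HolM τ f) (hg : HolM τ g) : HolM τ (fun x => f x + g x) := by
  intro w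
  obtain ⟨F, hF, h⟩ := hf w
  obtain ⟨G, hG, h'⟩ := hg w
  refine ⟨fun t => F t + G t, hF.add hG, ?_⟩
  filter_upwards [h, h'] with x hx hx'
  rw [hx, hx']

theorem HolM.sub {f g : M → ℂ} (hf : HolM τ f) (hg : HolM τ g) : HolM τ (fun x => f x - g x) := by
  intro w
  obtain ⟨F, hF, h⟩ := hf w
  obtain ⟨G, hG, h'⟩ := hg w
  refine ⟨fun t => F t - G t, hF.sub hG, ?_⟩
  filter_upwards [h, h'] with x hx hx'
  rw [hx, hx']

theorem HolM.mul {f g : M → ℂ} (hf : HolM τ f) (hg : HolM τ g) : HolM τ (fun x => f x * g x) := by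
  intro w
  obtain ⟨F, hF, h⟩ := hf w
  obtain ⟨G, hG, h'⟩ := hg w
  refine ⟨fun t => F t * G t, hF.mul hG, ?_⟩
  filter_upwards [h, h'] with x hx hx'
  rw [hx, hx']

theorem HolM.const_mul {f : M → ℂ} (c : ℂ) (hf : HolM τ f) : HolM τ (fun x => c * f x) :=
  (HolM.const c).mul hf

theorem HolM.inv {f : M → ℂ} (hf : HolM τ f) (h0 : ∀ x, f x ≠ 0) : HolM τ (fun x => (f x)⁻¹) := by
  intro w
  obtain ⟨F, hF, h⟩ := hf w
  refine ⟨fun t => (F t)⁻¹, ?_, ?_⟩
  · apply hF.inv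
    have := h.self_of_nhds
    rw [← this]
    exact h0 w
  · filter_upwards [h] with x hx
    rw [hx]

theorem HolM.div {f g : M → ℂ} (hf : HolM τ f) (hg : HolM τ g) (h0 : ∀ x, g x ≠ 0) :
    HolM τ (fun x => f x / g x) := by
  have := hf.mul (hg.inv h0)
  simpa only [div_eq_mul_inv] using this

theorem HolM.sum {ι : Type*} (s : Finset ι) {f : ι → M → ℂ} (hf : ∀ i, HolM τ (f i)) :
    HolM τ (fun x => ∑ i ∈ s, f i x) := by
  classical
  induction s using Finset.induction_on with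
  | empty => simpa using HolM.const (τ := τ) (0 : ℂ)
  | insert a s ha ih =>
    have : (fun x => ∑ i ∈ insert a s, f i x) = fun x => f a x + ∑ i ∈ s, f i x := by
      funext x; rw [Finset.sum_insert ha]
    rw [this]
    exact (hf a).add ih

theorem DM_const (hτo : IsOpenMap τ) (c : ℂ) (w : M) : DM τ (fun _ : M => c) w = 0 := by
  rw [DM_eq hτo (F := fun _ => c) analyticAt_const (Eventually.of_forall fun _ => rfl)]
  simp

theorem DM_add (hτo : IsOpenMap τ) {f g : M → ℂ} (hf : HolM τ f) (hg : HolM τ g) (w : M) :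
    DM τ (fun x => f x + g x) w = DM τ f w + DM τ g w := by
  obtain ⟨F, hF, h⟩ := hf w
  obtain ⟨G, hG, h'⟩ := hg w
  rw [DM_eq hτo hF h, DM_eq hτo hG h', DM_eq hτo (F := fun t => F t + G t) (hF.add hG)]
  · exact deriv_fun_add hF.differentiableAt hG.differentiableAt
  · filter_upwards [h, h'] with x hx hx'
    rw [hx, hx']

theorem DM_sub (hτo : IsOpenMap τ) {f g : M → ℂ} (hf : HolM τ f) (hg : HolM τ g) (w : M) :
    DM τ (fun x => f x - g x) w = DM τ f w - DM τ g w := by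
  obtain ⟨F, hF, h⟩ := hf w
  obtain ⟨G, hG, h'⟩ := hg w
  rw [DM_eq hτo hF h, DM_eq hτo hG h', DM_eq hτo (F := fun t => F t - G t) (hF.sub hG)]
  · exact deriv_fun_sub hF.differentiableAt hG.differentiableAt
  · filter_upwards [h, h'] with x hx hx'
    rw [hx, hx']

theorem DM_mul (hτo : IsOpenMap τ) {f g : M → ℂ} (hf : HolM τ f) (hg : HolM τ g) (w : M) :
    DM τ (fun x => f x * g x) w = DM τ f w * g w + f w * DM τ g w := by
  obtain ⟨F, hF, h⟩ := hf w
  obtain ⟨G, hG, h'⟩ := hg w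
  rw [DM_eq hτo hF h, DM_eq hτo hG h', DM_eq hτo (F := fun t => F t * G t) (hF.mul hG)]
  · rw [deriv_fun_mul hF.differentiableAt hG.differentiableAt, h.self_of_nhds, h'.self_of_nhds]
  · filter_upwards [h, h'] with x hx hx'
    rw [hx, hx']

theorem DM_const_mul (hτo : IsOpenMap τ) (c : ℂ) {f : M → ℂ} (hf : HolM τ f) (w : M) :
    DM τ (fun x => c * f x) w = c * DM τ f w := by
  rw [DM_mul hτo (HolM.const c) hf, DM_const hτo]
  ring

theorem DM_sum (hτo : IsOpenMap τ) {ι : Type*} (s : Finset ι) {f : ι → M → ℂ}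
    (hf : ∀ i, HolM τ (f i)) (w : M) :
    DM τ (fun x => ∑ i ∈ s, f i x) w = ∑ i ∈ s, DM τ (f i) w := by
  classical
  induction s using Finset.induction_on with
  | empty => simpa using DM_const hτo (0 : ℂ) w
  | insert a s ha ih =>
    have : (fun x => ∑ i ∈ insert a s, f i x) = fun x => f a x + ∑ i ∈ s, f i x := by
      funext x; rw [Finset.sum_insert ha]
    rw [this, Finset.sum_insert ha, DM_add hτo (hf a) (HolM.sum s hf), ih]

/-- an analytic germ that vanishes frequently in this strong sense vanishes -/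
theorem not_ev_zero [ConnectedSpace M] (hτ : Continuous τ) (hτo : IsOpenMap τ) {Q : M → ℂ}
    (hQ : HolM τ Q) {w₀ : M} (h0 : Q w₀ ≠ 0) (w : M) : ¬ ∀ᶠ x in 𝓝 w, Q x = 0 := by
  intro hw
  let S : Set M := {w | ∀ᶠ x in 𝓝 w, Q x = 0}
  have hSo : IsOpen S := by
    rw [isOpen_iff_eventually]
    intro x hx
    exact hx.eventually_nhds
  have hSc : IsClosed S := by
    rw [← closure_subset_iff_isClosed]
    intro x hx
    obtain ⟨F, hF, h⟩ := hQ x
    obtain ⟨r, hr, hFr⟩ := hF.exists_ball_analyticOnNhd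
    have hN : {y | τ y ∈ Metric.ball (τ x) r} ∈ 𝓝 x :=
      hτ.continuousAt.preimage_mem_nhds (Metric.ball_mem_nhds _ hr)
    obtain ⟨y, ⟨hy1, hy2⟩, hy3⟩ := mem_closure_iff_nhds.1 hx _
      (inter_mem hN (show {y | ∀ᶠ z in 𝓝 y, Q z = F (τ z)} ∈ 𝓝 x from h.eventually_nhds))
    have h1 : ∀ᶠ t in 𝓝 (τ y), F t = 0 := by
      apply ev_of_ev hτo
      have hy3' : ∀ᶠ z in 𝓝 y, Q z = 0 := hy3
      have hy2' : ∀ᶠ z in 𝓝 y, Q z = F (τ z) := hy2
      filter_upwards [hy2', hy3'] with z hz hz'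
      rw [← hz, hz']
    have h2 := hFr.eqOn_zero_of_preconnected_of_eventuallyEq_zero
      (Metric.isPreconnected_ball) hy1 h1
    have h3 : ∀ᶠ z in 𝓝 x, Q z = 0 := by
      filter_upwards [h, hN] with z hz hz'
      rw [hz, h2 hz']
      rfl
    exact h3
  have hSu : S = univ := IsClopen.eq_univ ⟨hSc, hSo⟩ ⟨w, hw⟩
  have h1 : w₀ ∈ S := hSu ▸ mem_univ w₀
  exact h0 (Filter.Eventually.self_of_nhds (p := fun x => Q x = 0) h1)

end

/-- one variable: a vanishing Wronskian -/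
theorem wronskian_zero {Φ Q : ℂ → ℂ} {t₀ : ℂ} (hΦ : AnalyticAt ℂ Φ t₀) (hQ : AnalyticAt ℂ Q t₀)
    (hQ0 : ¬ ∀ᶠ t in 𝓝 t₀, Q t = 0)
    (h : ∀ᶠ t in 𝓝 t₀, deriv Φ t * Q t - Φ t * deriv Q t = 0) :
    ∃ c : ℂ, ∀ᶠ t in 𝓝 t₀, Φ t = c * Q t := by
  obtain ⟨r, hr, hball⟩ := Metric.eventually_nhds_iff_ball.1
    (h.and (hΦ.eventually_analyticAt.and hQ.eventually_analyticAt))
  obtain ⟨t₁, ht₁, hQt₁⟩ : ∃ t₁ ∈ Metric.ball t₀ r, Q t₁ ≠ 0 := by
    by_contra hcon
    push Not at hcon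
    exact hQ0 (Metric.eventually_nhds_iff_ball.2 ⟨r, hr, hcon⟩)
  have hΦa : AnalyticOnNhd ℂ Φ (Metric.ball t₀ r) := fun t ht => (hball t ht).2.1
  have hQa : AnalyticOnNhd ℂ Q (Metric.ball t₀ r) := fun t ht => (hball t ht).2.2
  have h2 : ∀ᶠ t in 𝓝 t₁, Q t ≠ 0 := (hQa t₁ ht₁).continuousAt.eventually_ne hQt₁
  obtain ⟨ρ, hρ, hball2⟩ := Metric.eventually_nhds_iff_ball.1
    (h2.and (Metric.isOpen_ball.mem_nhds ht₁))
  have hconst : ∀ t ∈ Metric.ball t₁ ρ, Φ t / Q t = Φ t₁ / Q t₁ := by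
    intro t ht
    refine Metric.isOpen_ball.is_const_of_deriv_eq_zero (f := fun t => Φ t / Q t)
      (Metric.isPreconnected_ball) ?_ ?_ ht (Metric.mem_ball_self hρ)
    · intro x hx
      have hx' := (hball2 x hx).2
      exact ((hΦa x hx').differentiableAt.div (hQa x hx').differentiableAt
        (hball2 x hx).1).differentiableWithinAt
    · intro x hx
      have hx' := (hball2 x hx).2
      change deriv (fun t => Φ t / Q t) x = 0
      rw [deriv_fun_div (hΦa x hx').differentiableAt (hQa x hx').differentiableAt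
        (hball2 x hx).1, (hball x hx').1, zero_div]
  refine ⟨Φ t₁ / Q t₁, ?_⟩
  have h3 : AnalyticOnNhd ℂ (fun t => Φ t - Φ t₁ / Q t₁ * Q t) (Metric.ball t₀ r) := fun t ht =>
    (hΦa t ht).sub (analyticAt_const.mul (hQa t ht))
  have h4 : ∀ᶠ t in 𝓝 t₁, Φ t - Φ t₁ / Q t₁ * Q t = 0 := by
    refine Metric.eventually_nhds_iff_ball.2 ⟨ρ, hρ, fun t ht => ?_⟩
    rw [← hconst t ht, div_mul_cancel₀ _ (hball2 t ht).1, sub_self]
  have h5 := h3.eqOn_zero_of_preconnected_of_eventuallyEq_zero Metric.isPreconnected_ball ht₁ h4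
  refine Metric.eventually_nhds_iff_ball.2 ⟨r, hr, fun t ht => ?_⟩
  have := h5 ht
  simp only [Pi.zero_apply] at this
  exact sub_eq_zero.1 this

end W489
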