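import Pool.Agent.W489.Asm1
import Pool.Agent.W489.Hol

/-!
The curve over a line through the origin: local sections, and the complex structure on a component.
-/

set_option autoImplicit false

open Metric Set Topology Filter

namespace W489

open H113G

section

variable {m k e : ℕ} {Y : Set (Fin m → ℂ)} {pr : (Fin m → ℂ) → (Fin k → ℂ)}
  {δ : MvPolynomial (Fin k) ℂ}

theorem exists_section (hcov : Cov Y pr δ e) {y : Fin m → ℂ} (hy : y ∈ Y)
    (hδ : MvPolynomial.eval (pr y) δ ≠ 0) : ∃ (r : ℝ) (σ : (Fin k → ℂ) → (Fin m → ℂ)), 0 < r ∧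
      DifferentiableOn ℂ σ (ball (pr y) r) ∧ σ (pr y) = y ∧
      (∀ z ∈ ball (pr y) r, σ z ∈ Y ∧ pr (σ z) = z ∧ MvPolynomial.eval z δ ≠ 0) ∧
      ∀ᶠ y' in 𝓝 y, y' ∈ Y → pr y' ∈ ball (pr y) r ∧ σ (pr y') = y' := by
  obtain ⟨r, hr, s, hs, h⟩ := hcov.sections (pr y) hδ
  have hself : pr y ∈ ball (pr y) r := mem_ball_self hr
  obtain ⟨h1, h2, h3⟩ := h _ hself
  have h4 : y ∈ Set.range (fun i => s i (pr y)) := by rw [← h3]; exact ⟨hy, rfl⟩
  obtain ⟨i, hi⟩ := h4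
  refine ⟨r, s i, hr, hs i, hi, ?_, ?_⟩
  · intro z hz
    obtain ⟨h5, h6, h7⟩ := h z hz
    have h8 : s i z ∈ {y | y ∈ Y ∧ pr y = z} := by rw [h7]; exact ⟨i, rfl⟩
    exact ⟨h8.1, h8.2, h5⟩
  · have hprc : ContinuousAt pr y := hcov.diff.continuous.continuousAt
    have hball : ∀ᶠ y' in 𝓝 y, pr y' ∈ ball (pr y) r :=
      hprc.preimage_mem_nhds (ball_mem_nhds _ hr)
    have hne : ∀ j, j ≠ i → ∀ᶠ y' in 𝓝 y, s j (pr y') ≠ y' := by
      intro j hj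
      have hc : ContinuousAt (s j) (pr y) :=
        ((hs j).differentiableAt (ball_mem_nhds _ hr)).continuousAt
      have ht : Tendsto (fun y' => s j (pr y')) (𝓝 y) (𝓝 (s j (pr y))) :=
        hc.tendsto.comp hprc.tendsto
      have h5 : Tendsto (fun y' => dist (s j (pr y')) y') (𝓝 y) (𝓝 (dist (s j (pr y)) y)) :=
        ht.dist tendsto_id
      have h6 : 0 < dist (s j (pr y)) y := by
        rw [dist_pos]
        intro heq
        apply hj
        apply h2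
        exact heq.trans hi.symm
      filter_upwards [h5.eventually (lt_mem_nhds h6)] with y' hy'
      exact dist_pos.1 hy'
    have hne' : ∀ᶠ y' in 𝓝 y, ∀ j, j ≠ i → s j (pr y') ≠ y' := by
      rw [eventually_all]
      intro j
      by_cases hj : j = i
      · exact Eventually.of_forall fun y' h => absurd hj h
      · filter_upwards [hne j hj] with y' hy' _ using hy'
    filter_upwards [hball, hne'] with y' h5 h6 hy'
    refine ⟨h5, ?_⟩
    obtain ⟨h7, h8, h9⟩ := h _ h5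
    have h10 : y' ∈ Set.range (fun i => s i (pr y')) := by rw [← h9]; exact ⟨hy', rfl⟩
    obtain ⟨j, hj⟩ := h10
    by_cases hji : j = i
    · rw [← hji]; exact hj
    · exact absurd hj (h6 j hji)

/-- the coordinate on the curve -/
noncomputable def tt (pr : (Fin m → ℂ) → (Fin k → ℂ)) (v : Fin k → ℂ) (i₀ : Fin k)
    (y : Fin m → ℂ) : ℂ := pr y i₀ / v i₀

theorem tt_eq {v : Fin k → ℂ} {i₀ : Fin k} (hv : v i₀ ≠ 0) {y : Fin m → ℂ} {t : ℂ}
    (h : pr y = t • v) : tt pr v i₀ y = t := by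
  unfold tt
  rw [h, Pi.smul_apply, smul_eq_mul, mul_div_cancel_right₀ _ hv]

theorem tt_spec {v : Fin k → ℂ} {i₀ : Fin k} (hv : v i₀ ≠ 0) {y : Fin m → ℂ}
    (h : y ∈ LineP Y pr δ v) : pr y = tt pr v i₀ y • v ∧
      MvPolynomial.eval (tt pr v i₀ y • v) δ ≠ 0 := by
  obtain ⟨hy, t, ht, hδ⟩ := h
  rw [tt_eq hv ht]
  exact ⟨ht, hδ⟩

theorem continuous_tt (hcov : Cov Y pr δ e) (v : Fin k → ℂ) (i₀ : Fin k) :
    Continuous (tt pr v i₀) := by
  unfold tt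
  exact ((continuous_apply i₀).comp hcov.diff.continuous).div_const _

theorem curve_section (hcov : Cov Y pr δ e) {v : Fin k → ℂ} {i₀ : Fin k} (hv : v i₀ ≠ 0)
    {y₀ a : Fin m → ℂ} (ha : a ∈ connectedComponentIn (LineP Y pr δ v) y₀) :
    ∃ (ρ : ℝ) (σ : ℂ → (Fin m → ℂ)), 0 < ρ ∧
      DifferentiableOn ℂ σ (ball (tt pr v i₀ a) ρ) ∧ σ (tt pr v i₀ a) = a ∧
      (∀ t ∈ ball (tt pr v i₀ a) ρ, σ t ∈ connectedComponentIn (LineP Y pr δ v) y₀ ∧
        tt pr v i₀ (σ t) = t) ∧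
      ∀ᶠ y in 𝓝 a, y ∈ LineP Y pr δ v →
        tt pr v i₀ y ∈ ball (tt pr v i₀ a) ρ ∧ σ (tt pr v i₀ y) = y := by
  have haA : a ∈ LineP Y pr δ v := connectedComponentIn_subset _ _ ha
  obtain ⟨h1, h2⟩ := tt_spec hv haA
  rw [← h1] at h2
  obtain ⟨r, σ, hr, hσ, hσa, hσb, hσn⟩ := exists_section hcov haA.1 h2
  have hv0 : 0 < ‖v‖ := by
    rw [norm_pos_iff]
    intro h
    apply hv
    rw [h]; rfl
  have hmap : ∀ t ∈ ball (tt pr v i₀ a) (r / ‖v‖), t • v ∈ ball (pr a) r := by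
    intro t ht
    rw [mem_ball, dist_eq_norm] at ht ⊢
    rw [h1, ← sub_smul, norm_smul]
    rwa [lt_div_iff₀ hv0] at ht
  have hdiff : DifferentiableOn ℂ (fun t : ℂ => σ (t • v)) (ball (tt pr v i₀ a) (r / ‖v‖)) :=
    hσ.comp (differentiable_id.smul_const v).differentiableOn hmap
  have hσA : ∀ t ∈ ball (tt pr v i₀ a) (r / ‖v‖), σ (t • v) ∈ LineP Y pr δ v ∧
      tt pr v i₀ (σ (t • v)) = t := by
    intro t ht
    obtain ⟨h3, h4, h5⟩ := hσb _ (hmap t ht)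
    exact ⟨⟨h3, t, h4, h5⟩, tt_eq hv h4⟩
  have hρ : 0 < r / ‖v‖ := div_pos hr hv0
  refine ⟨r / ‖v‖, fun t => σ (t • v), hρ, hdiff, ?_, ?_, ?_⟩
  · beta_reduce
    rw [← h1, hσa]
  · intro t ht
    refine ⟨?_, (hσA t ht).2⟩
    have hpre : IsPreconnected ((fun t : ℂ => σ (t • v)) '' ball (tt pr v i₀ a) (r / ‖v‖)) :=
      isPreconnected_ball.image _ hdiff.continuousOn
    have hsub : (fun t : ℂ => σ (t • v)) '' ball (tt pr v i₀ a) (r / ‖v‖) ⊆ LineP Y pr δ v := by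
      rintro _ ⟨t', ht', rfl⟩
      exact (hσA t' ht').1
    have hmem : a ∈ (fun t : ℂ => σ (t • v)) '' ball (tt pr v i₀ a) (r / ‖v‖) :=
      ⟨tt pr v i₀ a, mem_ball_self hρ, by beta_reduce; rw [← h1, hσa]⟩
    have h6 := hpre.subset_connectedComponentIn hmem hsub
    rw [connectedComponentIn_eq ha]
    exact h6 ⟨t, ht, rfl⟩
  · have hc := (continuous_tt hcov v i₀).continuousAt (x := a)
    filter_upwards [hσn, hc.preimage_mem_nhds (ball_mem_nhds _ hρ)] with y h3 h4 hyA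
    refine ⟨h4, ?_⟩
    beta_reduce
    rw [← (tt_spec hv hyA).1]
    exact (h3 hyA.1).2

/-- the component of the curve, as a type -/
abbrev MM (Y : Set (Fin m → ℂ)) (pr : (Fin m → ℂ) → (Fin k → ℂ))
    (δ : MvPolynomial (Fin k) ℂ) (v : Fin k → ℂ) (y₀ : Fin m → ℂ) : Type :=
  connectedComponentIn (LineP Y pr δ v) y₀

theorem MM_section (hcov : Cov Y pr δ e) {v : Fin k → ℂ} {i₀ : Fin k} (hv : v i₀ ≠ 0)
    {y₀ : Fin m → ℂ} (a : MM Y pr δ v y₀) :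
    ∃ (ρ : ℝ) (σ : ℂ → (Fin m → ℂ)) (s : ℂ → MM Y pr δ v y₀), 0 < ρ ∧
      DifferentiableOn ℂ σ (ball (tt pr v i₀ a) ρ) ∧
      ContinuousOn s (ball (tt pr v i₀ a) ρ) ∧ s (tt pr v i₀ a) = a ∧
      (∀ t ∈ ball (tt pr v i₀ a) ρ, σ t = s t ∧ tt pr v i₀ (s t) = t) ∧
      ∀ᶠ y : MM Y pr δ v y₀ in 𝓝 a,
        tt pr v i₀ y ∈ ball (tt pr v i₀ a) ρ ∧ s (tt pr v i₀ y) = y := by
  classical
  obtain ⟨ρ, σ, hρ, hσ, hσa, hσM, hσn⟩ := curve_section hcov hv a.2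
  let s : ℂ → MM Y pr δ v y₀ := fun t =>
    if ht : t ∈ ball (tt pr v i₀ a) ρ then ⟨σ t, (hσM t ht).1⟩ else a
  have hs : ∀ t ∈ ball (tt pr v i₀ a) ρ, (s t : Fin m → ℂ) = σ t := by
    intro t ht
    simp only [s, dif_pos ht]
  refine ⟨ρ, σ, s, hρ, hσ, ?_, ?_, fun t ht => ⟨(hs t ht).symm, ?_⟩, ?_⟩
  · rw [Topology.IsInducing.subtypeVal.continuousOn_iff]
    exact hσ.continuousOn.congr fun t ht => hs t ht
  · apply Subtype.ext
    rw [hs _ (mem_ball_self hρ), hσa]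
  · rw [hs t ht]; exact (hσM t ht).2
  · have h1 : ∀ᶠ y : MM Y pr δ v y₀ in 𝓝 a, (y : Fin m → ℂ) ∈ LineP Y pr δ v →
        tt pr v i₀ y ∈ ball (tt pr v i₀ a) ρ ∧ σ (tt pr v i₀ y) = y :=
      continuous_subtype_val.continuousAt.eventually hσn
    filter_upwards [h1] with y hy
    obtain ⟨h2, h3⟩ := hy (connectedComponentIn_subset _ _ y.2)
    refine ⟨h2, Subtype.ext ?_⟩
    rw [hs _ h2, h3]

theorem MM_connected {v : Fin k → ℂ} {y₀ : Fin m → ℂ} (hy₀ : y₀ ∈ LineP Y pr δ v) :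
    ConnectedSpace (MM Y pr δ v y₀) :=
  Subtype.connectedSpace (isConnected_connectedComponentIn_iff.2 hy₀)

theorem MM_locallyConnected (hcov : Cov Y pr δ e) {v : Fin k → ℂ} {i₀ : Fin k} (hv : v i₀ ≠ 0)
    {y₀ : Fin m → ℂ} : LocallyConnectedSpace (MM Y pr δ v y₀) := by
  rw [locallyConnectedSpace_iff_connected_subsets]
  intro a U hU
  obtain ⟨ρ, σ, s, hρ, hσ, hs, hsa, hst, hsn⟩ := MM_section hcov hv a
  have hc : ContinuousAt s (tt pr v i₀ a) := hs.continuousAt (ball_mem_nhds _ hρ)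
  have h1 : s ⁻¹' U ∈ 𝓝 (tt pr v i₀ a) := hc.preimage_mem_nhds (by rw [hsa]; exact hU)
  obtain ⟨ρ', hρ', hball⟩ := Metric.mem_nhds_iff.1 (inter_mem h1 (ball_mem_nhds _ hρ))
  refine ⟨s '' ball (tt pr v i₀ a) ρ', ?_, ?_, ?_⟩
  · have hc2 : ContinuousAt (fun y : MM Y pr δ v y₀ => tt pr v i₀ y) a :=
      ((continuous_tt hcov v i₀).comp continuous_subtype_val).continuousAt
    filter_upwards [hsn, hc2.preimage_mem_nhds (ball_mem_nhds _ hρ')] with y hy hy'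
    exact ⟨tt pr v i₀ y, hy', hy.2⟩
  · exact isPreconnected_ball.image _ (hs.mono fun t ht => (hball ht).2)
  · rintro _ ⟨t, ht, rfl⟩
    exact (hball ht).1

theorem MM_continuous (hcov : Cov Y pr δ e) (v : Fin k → ℂ) (i₀ : Fin k)
    {y₀ : Fin m → ℂ} : Continuous (fun y : MM Y pr δ v y₀ => tt pr v i₀ y) :=
  (continuous_tt hcov v i₀).comp continuous_subtype_val

theorem MM_open (hcov : Cov Y pr δ e) {v : Fin k → ℂ} {i₀ : Fin k} (hv : v i₀ ≠ 0)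
    {y₀ : Fin m → ℂ} : IsOpenMap (fun y : MM Y pr δ v y₀ => tt pr v i₀ y) := by
  rw [isOpenMap_iff_nhds_le]
  intro a S hS
  obtain ⟨ρ, σ, s, hρ, hσ, hs, hsa, hst, hsn⟩ := MM_section hcov hv a
  have hc : ContinuousAt s (tt pr v i₀ a) := hs.continuousAt (ball_mem_nhds _ hρ)
  rw [mem_map] at hS
  have h1 : s ⁻¹' ((fun y : MM Y pr δ v y₀ => tt pr v i₀ y) ⁻¹' S) ∈ 𝓝 (tt pr v i₀ a) :=
    hc.preimage_mem_nhds (by rw [hsa]; exact hS)
  filter_upwards [h1, ball_mem_nhds _ hρ] with t ht ht'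
  have h2 : tt pr v i₀ (s t) ∈ S := ht
  rwa [(hst t ht').2] at h2

theorem MM_hol (hcov : Cov Y pr δ e) {v : Fin k → ℂ} {i₀ : Fin k} (hv : v i₀ ≠ 0)
    {y₀ : Fin m → ℂ} {f : (Fin m → ℂ) → ℂ} (hf : HolOn Y f) :
    HolM (fun y : MM Y pr δ v y₀ => tt pr v i₀ y) (fun y => f y) := by
  intro a
  obtain ⟨ρ, σ, s, hρ, hσ, hs, hsa, hst, hsn⟩ := MM_section hcov hv a
  have haY : (a : Fin m → ℂ) ∈ Y := (connectedComponentIn_subset _ _ a.2).1
  obtain ⟨U, hU, haU, h, hh, hfh⟩ := hf a haY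
  have hσa : σ (tt pr v i₀ a) = a := by
    rw [(hst _ (mem_ball_self hρ)).1, hsa]
  have hc : ContinuousAt σ (tt pr v i₀ a) :=
    hσ.continuousOn.continuousAt (ball_mem_nhds _ hρ)
  have h1 : σ ⁻¹' U ∈ 𝓝 (tt pr v i₀ a) :=
    hc.preimage_mem_nhds (by rw [hσa]; exact hU.mem_nhds haU)
  obtain ⟨ρ', hρ', hball⟩ := Metric.mem_nhds_iff.1 (inter_mem h1 (ball_mem_nhds _ hρ))
  refine ⟨fun t => h (σ t), ?_, ?_⟩
  · have h2 : DifferentiableOn ℂ (fun t => h (σ t)) (ball (tt pr v i₀ a) ρ') :=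
      hh.comp (hσ.mono fun t ht => (hball ht).2) fun t ht => (hball ht).1
    exact h2.analyticAt (ball_mem_nhds _ hρ')
  · have h3 : ∀ᶠ y : MM Y pr δ v y₀ in 𝓝 a, (y : Fin m → ℂ) ∈ U :=
      continuous_subtype_val.continuousAt.preimage_mem_nhds (hU.mem_nhds haU)
    filter_upwards [hsn, h3] with y hy hyU
    have hyY : (y : Fin m → ℂ) ∈ Y := (connectedComponentIn_subset _ _ y.2).1
    have h4 : σ (tt pr v i₀ y) = y := by
      rw [(hst _ hy.1).1, hy.2]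
    beta_reduce
    rw [h4, hfh y hyY hyU]

theorem hasLog_iff {v : Fin k → ℂ} {y₀ : Fin m → ℂ} {g : (Fin m → ℂ) → ℂ} :
    HasLog (connectedComponentIn (LineP Y pr δ v) y₀) g ↔
      ∃ h : MM Y pr δ v y₀ → ℂ, Continuous h ∧ ∀ x, Complex.exp (h x) = g x := by
  classical
  constructor
  · rintro ⟨h, hh, he⟩
    exact ⟨fun x => h x, continuousOn_iff_continuous_domRestrict.1 hh, fun x => he x x.2⟩
  · rintro ⟨h, hh, he⟩
    refine ⟨fun y => if hy : y ∈ connectedComponentIn (LineP Y pr δ v) y₀ then h ⟨y, hy⟩ else 0,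
      ?_, ?_⟩
    · rw [continuousOn_iff_continuous_domRestrict]
      convert hh using 1
      funext x
      simp only [domRestrict_apply, dif_pos x.2]
    · intro y hy
      simp only [dif_pos hy]
      exact he ⟨y, hy⟩

end

end W489
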