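import Pool.Agent.W489.Hol

/-!
The monodromy argument: a logarithmic differential `∑ μᵢ duᵢ/uᵢ` with a single valued primitive of
the form `P/Q` has all `μᵢ = 0`, if no nontrivial monomial in the `uᵢ` has a logarithm.
-/

set_option autoImplicit false

open Set Topology Filter

namespace W489

theorem exp_inj_near {a b : ℂ} (h : Complex.exp a = Complex.exp b) (h1 : ‖a - b‖ < 1) : a = b := by
  obtain ⟨k, hk⟩ := Complex.exp_eq_exp_iff_exists_int.1 h
  have h2 : a - b = k * (2 * Real.pi * Complex.I) := by rw [hk]; ring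
  rw [h2, norm_mul, norm_mul, norm_mul] at h1
  simp only [Complex.norm_intCast, Complex.norm_ofNat, Complex.norm_real, Complex.norm_I, mul_one,
    Real.norm_eq_abs, abs_of_pos Real.pi_pos] at h1
  have hk0 : k = 0 := by
    by_contra hk0
    have h3 : (1 : ℝ) ≤ |(k : ℝ)| := by
      rw [← Int.cast_abs]
      exact_mod_cast Int.one_le_abs hk0
    have h4 := Real.pi_gt_three
    nlinarith
  rw [hk, hk0]; simp

/-- the local logarithm of `u` near `w` -/
noncomputable def lam {M : Type} (u : M → ℂ) (w x : M) : ℂ :=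
  Complex.log (u x / u w) + Complex.log (u w)

section lamsec

variable {M : Type} [TopologicalSpace M] {u : M → ℂ}

theorem slit_of_near {z : ℂ} (h : ‖z - 1‖ < 1) : z ∈ Complex.slitPlane := by
  rw [Complex.mem_slitPlane_iff]
  left
  have h1 : |(z - 1).re| ≤ ‖z - 1‖ := Complex.abs_re_le_norm _
  rw [Complex.sub_re, Complex.one_re] at h1
  have := abs_le.1 (h1.trans h.le)
  have h2 := (abs_lt.1 (lt_of_le_of_lt h1 h)).1
  linarith

theorem exp_lam {w x : M} (h0 : u w ≠ 0) (hx : ‖u x / u w - 1‖ < 1) :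
    Complex.exp (lam u w x) = u x := by
  unfold lam
  have h1 : u x / u w ≠ 0 := Complex.slitPlane_ne_zero (slit_of_near hx)
  rw [Complex.exp_add, Complex.exp_log h1, Complex.exp_log h0, div_mul_cancel₀ _ h0]

theorem continuousAt_lam (hu : Continuous u) {w x : M} (h0 : u w ≠ 0)
    (hx : ‖u x / u w - 1‖ < 1) : ContinuousAt (lam u w) x := by
  unfold lam
  have h1 : ContinuousAt (fun x => u x / u w) x := (hu.div_const _).continuousAt
  exact (h1.clog (slit_of_near hx)).add continuousAt_const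

theorem near_open (hu : Continuous u) (w : M) : IsOpen {x | ‖u x / u w - 1‖ < 1} :=
  isOpen_lt ((hu.div_const _).sub continuous_const).norm continuous_const

theorem hol_lam {τ : M → ℂ} (hτ : Continuous τ) (hu : HolM τ u) {w x : M}
    (h0 : u w ≠ 0) (hx : ‖u x / u w - 1‖ < 1) {U : ℂ → ℂ} (hU : AnalyticAt ℂ U (τ x))
    (hUu : ∀ᶠ y in 𝓝 x, u y = U (τ y)) :
    ∃ L : ℂ → ℂ, AnalyticAt ℂ L (τ x) ∧ (∀ᶠ y in 𝓝 x, lam u w y = L (τ y)) ∧
      ∀ᶠ t in 𝓝 (τ x), deriv L t = deriv U t / U t := by
  have hslit : U (τ x) / u w ∈ Complex.slitPlane := by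
    rw [← hUu.self_of_nhds]; exact slit_of_near hx
  refine ⟨fun t => Complex.log (U t / u w) + Complex.log (u w), ?_, ?_, ?_⟩
  · have h1 : AnalyticAt ℂ (fun t => U t / u w) (τ x) := hU.div analyticAt_const h0
    exact (h1.clog hslit).add analyticAt_const
  · filter_upwards [hUu] with y hy
    unfold lam
    rw [hy]
  · have h2 : ∀ᶠ t in 𝓝 (τ x), U t / u w ∈ Complex.slitPlane :=
      (hU.continuousAt.div_const _).eventually (Complex.isOpen_slitPlane.mem_nhds hslit)
    filter_upwards [h2, hU.eventually_analyticAt] with t ht hta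
    have hU0 : U t ≠ 0 := by
      intro h
      rw [h, zero_div] at ht
      exact Complex.slitPlane_ne_zero ht rfl
    have h3 : HasDerivAt (fun t => U t / u w) (deriv U t / u w) t :=
      hta.differentiableAt.hasDerivAt.div_const _
    have h4 := (h3.clog ht).add_const (Complex.log (u w))
    rw [h4.deriv]
    field_simp

end lamsec

variable {M : Type} [TopologicalSpace M] {n : ℕ}

/-- pairs `(x, h)` with `exp (h i) = u i x` -/
abbrev Wh (u : Fin n → M → ℂ) : Type :=
  {p : M × (Fin n → ℂ) // ∀ i, Complex.exp (p.2 i) = u i p.1}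

/-- translation by `2 π i b` -/
noncomputable def Tr (u : Fin n → M → ℂ) (b : Fin n → ℤ) (p : Wh u) : Wh u :=
  ⟨(p.1.1, fun i => p.1.2 i + (b i : ℂ) * (2 * Real.pi * Complex.I)), fun i => by
    rw [Complex.exp_add, Complex.exp_int_mul_two_pi_mul_I, mul_one]
    exact p.2 i⟩

theorem Tr_continuous (u : Fin n → M → ℂ) (b : Fin n → ℤ) : Continuous (Tr u b) := by
  unfold Tr
  refine Continuous.subtype_mk ?_ _
  refine Continuous.prodMk (continuous_fst.comp continuous_subtype_val) ?_
  refine continuous_pi fun i => ?_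
  exact (((continuous_apply i).comp (continuous_snd.comp continuous_subtype_val))).add
    continuous_const

section sheets

variable {u : Fin n → M → ℂ}

/-- the sheet through `p` over the set `O` on which `lam (u i) w` are logarithms -/
def Sh (u : Fin n → M → ℂ) (w : M) (O : Set M) (p : Wh u) : Set (Wh u) :=
  {q | q.1.1 ∈ O ∧ ∀ i, q.1.2 i = p.1.2 i + lam (u i) w q.1.1 - lam (u i) w p.1.1}

theorem exists_nhd [LocallyConnectedSpace M] (hu : ∀ i, Continuous (u i)) (w : M)
    (h0 : ∀ i, u i w ≠ 0) {N : Set M} (hN : N ∈ 𝓝 w) :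
    ∃ O : Set M, IsOpen O ∧ w ∈ O ∧ IsPreconnected O ∧ O ⊆ N ∧
      ∀ x ∈ O, ∀ i, ‖u i x / u i w - 1‖ < 1 := by
  have h1 : (⋂ i, {x | ‖u i x / u i w - 1‖ < 1}) ∈ 𝓝 w := by
    rw [Filter.iInter_mem]
    intro i
    refine (near_open (hu i) w).mem_nhds ?_
    simp [div_self (h0 i)]
  obtain ⟨O, ⟨hO1, hO2, hO3⟩, hO4⟩ :=
    (LocallyConnectedSpace.open_connected_basis w).mem_iff.1 (inter_mem hN h1)
  refine ⟨O, hO1, hO2, hO3.isPreconnected, fun x hx => (hO4 hx).1, fun x hx i => ?_⟩
  have := (hO4 hx).2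
  rw [mem_iInter] at this
  exact this i

theorem Sh_preconnected {w : M} {O : Set M} (hu : ∀ i, Continuous (u i)) (h0 : ∀ i, u i w ≠ 0)
    (hO : IsPreconnected O) (hOn : ∀ x ∈ O, ∀ i, ‖u i x / u i w - 1‖ < 1) (p : Wh u)
    (hp : p.1.1 ∈ O) : IsPreconnected (Sh u w O p) := by
  have hprf : ∀ x : O, ∀ i, Complex.exp (p.1.2 i + lam (u i) w x - lam (u i) w p.1.1) =
      u i x := by
    intro x i
    rw [Complex.exp_sub, Complex.exp_add, exp_lam (h0 i) (hOn x x.2 i),
      exp_lam (h0 i) (hOn _ hp i), p.2 i]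
    have h1 : u i p.1.1 ≠ 0 := by rw [← p.2 i]; exact Complex.exp_ne_zero _
    field_simp
  let σ : O → Wh u := fun x =>
    ⟨(x, fun i => p.1.2 i + lam (u i) w x - lam (u i) w p.1.1), hprf x⟩
  have hσ : Continuous σ := by
    refine Continuous.subtype_mk ?_ _
    refine Continuous.prodMk continuous_subtype_val ?_
    refine continuous_pi fun i => ?_
    refine (continuous_const.add ?_).sub continuous_const
    rw [continuous_iff_continuousAt]
    intro x
    exact (continuousAt_lam (hu i) (h0 i) (hOn x x.2 i)).comp continuous_subtype_val.continuousAt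
  have himg : Sh u w O p = range σ := by
    ext q
    constructor
    · rintro ⟨h1, h2⟩
      refine ⟨⟨q.1.1, h1⟩, ?_⟩
      apply Subtype.ext
      apply Prod.ext
      · rfl
      · funext i
        exact (h2 i).symm
    · rintro ⟨x, rfl⟩
      exact ⟨x.2, fun i => rfl⟩
  rw [himg]
  have : PreconnectedSpace O := Subtype.preconnectedSpace hO
  exact isPreconnected_range hσ

theorem Sh_mem {w : M} {O : Set M} {p : Wh u} (hp : p.1.1 ∈ O) : p ∈ Sh u w O p :=
  ⟨hp, fun i => by ring⟩

theorem Sh_nhds {w : M} {O : Set M} (hu : ∀ i, Continuous (u i)) (h0 : ∀ i, u i w ≠ 0)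
    (hO : IsOpen O) (hOn : ∀ x ∈ O, ∀ i, ‖u i x / u i w - 1‖ < 1) (p : Wh u)
    (hp : p.1.1 ∈ O) : Sh u w O p ∈ 𝓝 p := by
  have h1 : ∀ᶠ q : Wh u in 𝓝 p, q.1.1 ∈ O :=
    (continuous_fst.comp continuous_subtype_val).continuousAt.preimage_mem_nhds
      (hO.mem_nhds hp)
  have h2 : ∀ i, ∀ᶠ q : Wh u in 𝓝 p,
      ‖q.1.2 i - (p.1.2 i + lam (u i) w q.1.1 - lam (u i) w p.1.1)‖ < 1 := by
    intro i
    have hc : ContinuousAt (fun q : Wh u =>
        ‖q.1.2 i - (p.1.2 i + lam (u i) w q.1.1 - lam (u i) w p.1.1)‖) p := by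
      have hc1 : ContinuousAt (fun q : Wh u => lam (u i) w q.1.1) p :=
        ContinuousAt.comp (g := lam (u i) w) (continuousAt_lam (hu i) (h0 i) (hOn _ hp i))
          (continuous_fst.comp continuous_subtype_val).continuousAt
      have hc2 : ContinuousAt (fun q : Wh u => q.1.2 i) p :=
        ((continuous_apply i).comp (continuous_snd.comp continuous_subtype_val)).continuousAt
      exact (hc2.sub ((continuousAt_const.add hc1).sub continuousAt_const)).norm
    have hc0 : ‖p.1.2 i - (p.1.2 i + lam (u i) w p.1.1 - lam (u i) w p.1.1)‖ < 1 := by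
      simp
    exact hc.eventually_lt continuousAt_const hc0
  filter_upwards [h1, eventually_all.2 h2] with q hq1 hq2
  refine ⟨hq1, fun i => exp_inj_near ?_ (hq2 i)⟩
  rw [Complex.exp_sub, Complex.exp_add, exp_lam (h0 i) (hOn _ hq1 i),
    exp_lam (h0 i) (hOn _ hp i), p.2 i, q.2 i]
  have h1 : u i p.1.1 ≠ 0 := by rw [← p.2 i]; exact Complex.exp_ne_zero _
  field_simp

theorem Sh_subset_component {w : M} {O : Set M} (hu : ∀ i, Continuous (u i))
    (h0 : ∀ i, u i w ≠ 0) (hO : IsPreconnected O)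
    (hOn : ∀ x ∈ O, ∀ i, ‖u i x / u i w - 1‖ < 1) {p p₀ : Wh u}
    (hp : p.1.1 ∈ O) (hpc : p ∈ connectedComponent p₀) :
    Sh u w O p ⊆ connectedComponent p₀ := by
  rw [connectedComponent_eq hpc]
  exact (Sh_preconnected hu h0 hO hOn p hp).subset_connectedComponent (Sh_mem hp)

/-- the component projects onto `M` -/
theorem component_surj [ConnectedSpace M] [LocallyConnectedSpace M] (hu : ∀ i, Continuous (u i))
    (h0 : ∀ i x, u i x ≠ 0) (p₀ : Wh u) (x : M) :
    ∃ p ∈ connectedComponent p₀, p.1.1 = x := by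
  let S : Set M := {x | ∃ p ∈ connectedComponent p₀, p.1.1 = x}
  have hmain : ∀ w : M, ∃ O : Set M, IsOpen O ∧ w ∈ O ∧ ((O ∩ S).Nonempty → O ⊆ S) := by
    intro w
    obtain ⟨O, hO1, hO2, hO3, -, hO5⟩ := exists_nhd hu w (fun i => h0 i w) univ_mem
    refine ⟨O, hO1, hO2, ?_⟩
    rintro ⟨x, hx, p, hp, rfl⟩ y hy
    have h1 := Sh_subset_component hu (fun i => h0 i w) hO3 hO5 hx hp
    have hprf : ∀ i, Complex.exp (p.1.2 i + lam (u i) w y - lam (u i) w p.1.1) = u i y := by
      intro i
      rw [Complex.exp_sub, Complex.exp_add, exp_lam (h0 i w) (hO5 y hy i),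
        exp_lam (h0 i w) (hO5 _ hx i), p.2 i]
      have h1 : u i p.1.1 ≠ 0 := h0 i _
      field_simp
    exact ⟨⟨(y, fun i => p.1.2 i + lam (u i) w y - lam (u i) w p.1.1), hprf⟩,
      h1 ⟨hy, fun i => rfl⟩, rfl⟩
  have hSo : IsOpen S := by
    rw [isOpen_iff_mem_nhds]
    intro w hw
    obtain ⟨O, hO1, hO2, hO3⟩ := hmain w
    exact mem_of_superset (hO1.mem_nhds hO2) (hO3 ⟨w, hO2, hw⟩)
  have hSc : IsClosed S := by
    rw [← closure_subset_iff_isClosed]
    intro w hw
    obtain ⟨O, hO1, hO2, hO3⟩ := hmain w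
    exact hO3 (mem_closure_iff.1 hw O hO1 hO2) hO2
  have hSu : S = univ := IsClopen.eq_univ ⟨hSc, hSo⟩ ⟨p₀.1.1, p₀, mem_connectedComponent, rfl⟩
  have hx : x ∈ S := by rw [hSu]; exact mem_univ x
  exact hx

/-- if two points of the component differ by a translation then the component is invariant -/
theorem component_Tr {p₀ p : Wh u} {b : Fin n → ℤ} (hp : p ∈ connectedComponent p₀)
    (hb : Tr u b p ∈ connectedComponent p₀) : Tr u b p₀ ∈ connectedComponent p₀ := by
  have h1 : IsPreconnected (Tr u b '' connectedComponent p₀) :=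
    isPreconnected_connectedComponent.image _ (Tr_continuous u b).continuousOn
  have h2 := h1.subset_connectedComponent (mem_image_of_mem _ hp)
  rw [connectedComponent_eq hb]
  exact h2 (mem_image_of_mem _ mem_connectedComponent)

/-- two points over the same point differ by a translation -/
theorem exists_Tr {p q : Wh u} (h : p.1.1 = q.1.1) : ∃ b : Fin n → ℤ, q = Tr u b p := by
  have h1 : ∀ i, ∃ k : ℤ, q.1.2 i = p.1.2 i + k * (2 * Real.pi * Complex.I) := by
    intro i
    apply Complex.exp_eq_exp_iff_exists_int.1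
    rw [q.2 i, p.2 i, h]
  choose b hb using h1
  refine ⟨b, Subtype.ext (Prod.ext h.symm (funext hb))⟩

/-- an integer vector orthogonal to all the translations of the component gives a logarithm -/
theorem exists_log [ConnectedSpace M] [LocallyConnectedSpace M] (hu : ∀ i, Continuous (u i))
    (h0 : ∀ i x, u i x ≠ 0) (p₀ : Wh u) (c : Fin n → ℤ)
    (hc : ∀ b : Fin n → ℤ, Tr u b p₀ ∈ connectedComponent p₀ → ∑ i, c i * b i = 0) :
    ∃ h : M → ℂ, Continuous h ∧ ∀ x, Complex.exp (h x) = ∏ i, u i x ^ c i := by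
  choose P hP1 hP2 using component_surj hu h0 p₀
  have hwd : ∀ p ∈ connectedComponent p₀, ∑ i, (c i : ℂ) * (P p.1.1).1.2 i =
      ∑ i, (c i : ℂ) * p.1.2 i := by
    intro p hp
    obtain ⟨b, hb⟩ := exists_Tr (hP2 p.1.1)
    have h1 := hc b (component_Tr (hP1 p.1.1) (hb ▸ hp))
    have h2 : ∀ i, p.1.2 i = (P p.1.1).1.2 i + (b i : ℂ) * (2 * Real.pi * Complex.I) := by
      intro i
      conv_lhs => rw [hb]
      rfl
    simp_rw [h2, mul_add, Finset.sum_add_distrib]
    have h3 : ∑ i, (c i : ℂ) * ((b i : ℂ) * (2 * Real.pi * Complex.I)) =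
        ((∑ i, c i * b i : ℤ) : ℂ) * (2 * Real.pi * Complex.I) := by
      push_cast
      rw [Finset.sum_mul]
      exact Finset.sum_congr rfl fun i _ => by ring
    rw [h3, h1]
    simp
  refine ⟨fun x => ∑ i, (c i : ℂ) * (P x).1.2 i, ?_, ?_⟩
  · rw [continuous_iff_continuousAt]
    intro w
    obtain ⟨O, hO1, hO2, hO3, -, hO5⟩ := exists_nhd hu w (fun i => h0 i w) univ_mem
    have hpO : (P w).1.1 ∈ O := by rw [hP2]; exact hO2
    have h1 := Sh_subset_component hu (fun i => h0 i w) hO3 hO5 hpO (hP1 w)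
    have h2 : ∀ y ∈ O, ∑ i, (c i : ℂ) * (P y).1.2 i =
        ∑ i, (c i : ℂ) * ((P w).1.2 i + lam (u i) w y - lam (u i) w w) := by
      intro y hy
      have hprf : ∀ i, Complex.exp ((P w).1.2 i + lam (u i) w y - lam (u i) w w) = u i y := by
        intro i
        rw [Complex.exp_sub, Complex.exp_add, exp_lam (h0 i w) (hO5 y hy i),
          exp_lam (h0 i w) (hO5 _ hO2 i), (P w).2 i, hP2]
        have h1 : u i w ≠ 0 := h0 i _
        field_simp
      have h3 := hwd ⟨(y, fun i => (P w).1.2 i + lam (u i) w y - lam (u i) w w), hprf⟩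
        (h1 ⟨hy, fun i => by simp only [hP2]⟩)
      exact h3
    have h3 : ContinuousAt (fun y => ∑ i, (c i : ℂ) * ((P w).1.2 i + lam (u i) w y -
        lam (u i) w w)) w := by
      refine tendsto_finsetSum _ fun i _ => ?_
      exact (continuousAt_const.mul ((continuousAt_const.add
        (continuousAt_lam (hu i) (h0 i w) (hO5 w hO2 i))).sub continuousAt_const))
    refine h3.congr ?_
    filter_upwards [hO1.mem_nhds hO2] with y hy
    exact (h2 y hy).symm
  · intro x
    rw [Complex.exp_sum]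
    refine Finset.prod_congr rfl fun i _ => ?_
    rw [Complex.exp_int_mul, (P x).2 i, hP2]

end sheets

/-- linear algebra: a complex vector orthogonal to a set of integer vectors that is not contained
in a rational hyperplane is zero -/
theorem mu_zero (B : Set (Fin n → ℤ)) (hB : ∀ c : Fin n → ℤ, c ≠ 0 → ∃ b ∈ B, ∑ i, c i * b i ≠ 0)
    (μ : Fin n → ℂ) (hμ : ∀ b ∈ B, ∑ i, μ i * (b i : ℂ) = 0) : μ = 0 := by
  classical
  let V : Submodule ℚ (Fin n → ℚ) := Submodule.span ℚ ((fun b : Fin n → ℤ => fun i => (b i : ℚ)) '' B)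
  have hV : V = ⊤ := by
    by_contra hne
    obtain ⟨f, hf0, hf⟩ := Submodule.exists_le_ker_of_lt_top V (lt_top_iff_ne_top.2 hne)
    -- clear denominators
    let q : Fin n → ℚ := fun i => f (Pi.single i 1)
    have hfq : ∀ v : Fin n → ℚ, f v = ∑ i, q i * v i := by
      intro v
      conv_lhs => rw [← Finset.univ_sum_single v]
      rw [map_sum]
      refine Finset.sum_congr rfl fun i _ => ?_
      have : (Pi.single i (v i) : Fin n → ℚ) = v i • (Pi.single i 1 : Fin n → ℚ) := by
        rw [← Pi.single_smul, smul_eq_mul, mul_one]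
      rw [this, map_smul, smul_eq_mul, mul_comm]
    have hq0 : q ≠ 0 := by
      intro h
      apply hf0
      ext v
      simp only [LinearMap.comp_apply, LinearMap.zero_apply]
      rw [hfq]
      simp [h]
    let d : ℕ := ∏ i, (q i).den
    have hd : (d : ℚ) ≠ 0 := by
      have : d ≠ 0 := Finset.prod_ne_zero_iff.2 fun i _ => (q i).den_nz
      exact_mod_cast this
    have hc : ∀ i, ∃ z : ℤ, (z : ℚ) = d * q i := by
      intro i
      refine ⟨(∏ j ∈ Finset.univ.erase i, ((q j).den : ℤ)) * (q i).num, ?_⟩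
      have h1 : (d : ℚ) = (∏ j ∈ Finset.univ.erase i, ((q j).den : ℚ)) * (q i).den := by
        simp only [d]
        rw [Nat.cast_prod, ← Finset.prod_erase_mul _ _ (Finset.mem_univ i)]
      push_cast
      rw [h1, mul_assoc]
      congr 1
      rw [mul_comm, Rat.mul_den_eq_num]
    choose c hc using hc
    have hc0 : c ≠ 0 := by
      intro h
      apply hq0
      funext i
      have h1 := hc i
      rw [h] at h1
      simp only [Pi.zero_apply, Int.cast_zero] at h1
      rcases mul_eq_zero.1 h1.symm with h2 | h2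
      · exact absurd h2 hd
      · exact h2
    obtain ⟨b, hb, hcb⟩ := hB c hc0
    apply hcb
    have h1 : f (fun i => (b i : ℚ)) = 0 := by
      have : (fun i => (b i : ℚ)) ∈ V := Submodule.subset_span ⟨b, hb, rfl⟩
      exact hf this
    rw [hfq] at h1
    have h2 : ((∑ i, c i * b i : ℤ) : ℚ) = d * ∑ i, q i * (b i : ℚ) := by
      push_cast
      rw [Finset.mul_sum]
      refine Finset.sum_congr rfl fun i _ => ?_
      rw [hc i]; ring
    rw [h1, mul_zero] at h2
    exact_mod_cast h2
  -- the functional of μ vanishes on V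
  have h1 : ∀ v ∈ V, ∑ i, μ i * ((v i : ℚ) : ℂ) = 0 := by
    intro v hv
    induction hv using Submodule.span_induction with
    | mem x hx =>
      obtain ⟨b, hb, rfl⟩ := hx
      have := hμ b hb
      simpa using this
    | zero => simp
    | add x y _ _ hx hy =>
      simp only [Pi.add_apply, Rat.cast_add, mul_add, Finset.sum_add_distrib, hx, hy, add_zero]
    | smul a x _ hx =>
      simp only [Pi.smul_apply, smul_eq_mul, Rat.cast_mul]
      have : ∑ i, μ i * ((a : ℂ) * ((x i : ℚ) : ℂ)) = a * ∑ i, μ i * ((x i : ℚ) : ℂ) := by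
        rw [Finset.mul_sum]
        exact Finset.sum_congr rfl fun i _ => by ring
      rw [this, hx, mul_zero]
  funext i
  have h2 := h1 (Pi.single i 1) (hV ▸ Submodule.mem_top)
  rw [Finset.sum_eq_single i] at h2
  · simpa using h2
  · intro j _ hj
    rw [Pi.single_eq_of_ne hj]; simp
  · intro h; exact absurd (Finset.mem_univ i) h

/-- **Monodromy lemma.** -/
theorem mono [ConnectedSpace M] [LocallyConnectedSpace M] {τ : M → ℂ} (hτ : Continuous τ)
    (hτo : IsOpenMap τ) {u : Fin n → M → ℂ} (hu : ∀ i, HolM τ (u i)) (h0 : ∀ i x, u i x ≠ 0)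
    (hind : ∀ c : Fin n → ℤ, c ≠ 0 →
      ¬ ∃ h : M → ℂ, Continuous h ∧ ∀ x, Complex.exp (h x) = ∏ i, u i x ^ c i)
    {P Q : M → ℂ} (hP : HolM τ P) (hQ : HolM τ Q) {w₀ : M} (hQ0 : Q w₀ ≠ 0) {μ : Fin n → ℂ}
    (hrel : ∀ w, DM τ P w * Q w - P w * DM τ Q w =
      (∑ i, μ i * (DM τ (u i) w / u i w)) * Q w ^ 2) : μ = 0 := by
  classical
  have huc : ∀ i, Continuous (u i) := fun i => (hu i).continuous hτ
  let p₀ : Wh u := ⟨(w₀, fun i => Complex.log (u i w₀)), fun i => Complex.exp_log (h0 i w₀)⟩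
  let Φ : Wh u → ℂ := fun p => P p.1.1 - (∑ i, μ i * p.1.2 i) * Q p.1.1
  -- local proportionality
  have hloc : ∀ p : Wh u, ∃ c : ℂ, ∀ᶠ q in 𝓝 p, Φ q = c * Q q.1.1 := by
    intro p
    obtain ⟨O, hO1, hO2, hO3, -, hO5⟩ := exists_nhd huc p.1.1 (fun i => h0 i _) univ_mem
    have hnear : ∀ i, ‖u i p.1.1 / u i p.1.1 - 1‖ < 1 := fun i => hO5 _ hO2 i
    obtain ⟨P', hP', hPP'⟩ := hP p.1.1
    obtain ⟨Q', hQ', hQQ'⟩ := hQ p.1.1
    choose U hU hUu using fun i => hu i p.1.1
    choose L hL hLl hLd using fun i =>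
      hol_lam hτ (hu i) (h0 i p.1.1) (hnear i) (hU i) (hUu i)
    let Ψ : ℂ → ℂ := fun t => P' t -
      (∑ i, μ i * (p.1.2 i + L i t - lam (u i) p.1.1 p.1.1)) * Q' t
    have hSa : AnalyticAt ℂ (fun t => ∑ i, μ i * (p.1.2 i + L i t - lam (u i) p.1.1 p.1.1))
        (τ p.1.1) := by
      have : (fun t => ∑ i, μ i * (p.1.2 i + L i t - lam (u i) p.1.1 p.1.1)) =
          ∑ i, fun t => μ i * (p.1.2 i + L i t - lam (u i) p.1.1 p.1.1) := by
        funext t; simp
      rw [this]
      exact Finset.analyticAt_sum _ fun i _ =>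
        analyticAt_const.mul ((analyticAt_const.add (hL i)).sub analyticAt_const)
    have hΨ : AnalyticAt ℂ Ψ (τ p.1.1) := hP'.sub (hSa.mul hQ')
    have hQ'0 : ¬ ∀ᶠ t in 𝓝 (τ p.1.1), Q' t = 0 := by
      intro h
      apply not_ev_zero hτ hτo hQ hQ0 p.1.1
      filter_upwards [hQQ', hτ.continuousAt.eventually h] with x hx hx'
      rw [hx, hx']
    have hWr : ∀ᶠ t in 𝓝 (τ p.1.1), deriv Ψ t * Q' t - Ψ t * deriv Q' t = 0 := by
      have e1 : ∀ᶠ t in 𝓝 (τ p.1.1), deriv P' t * Q' t - P' t * deriv Q' t =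
          (∑ i, μ i * (deriv (U i) t / U i t)) * Q' t ^ 2 := by
        apply ev_of_ev hτo (w := p.1.1)
        filter_upwards [hPP', hQQ', DM_near hτ hτo hP' hPP', DM_near hτ hτo hQ' hQQ',
          eventually_all.2 hUu, eventually_all.2 fun i => DM_near hτ hτo (hU i) (hUu i)]
          with x h1 h2 h3 h4 h5 h6
        have := hrel x
        rw [h1, h2, h3, h4] at this
        rw [this]
        simp_rw [h5, h6]
      filter_upwards [e1, eventually_all.2 hLd, hP'.eventually_analyticAt,
        hQ'.eventually_analyticAt, eventually_all.2 fun i => (hL i).eventually_analyticAt]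
        with t h1 h2 h3 h4 h5
      have hd : HasDerivAt (fun t => ∑ i, μ i * (p.1.2 i + L i t - lam (u i) p.1.1 p.1.1))
          (∑ i, μ i * (deriv (U i) t / U i t)) t := by
        have : (fun t => ∑ i, μ i * (p.1.2 i + L i t - lam (u i) p.1.1 p.1.1)) =
            ∑ i, fun t => μ i * (p.1.2 i + L i t - lam (u i) p.1.1 p.1.1) := by
          funext t; simp
        rw [this]
        apply HasDerivAt.sum
        intro i _
        apply HasDerivAt.const_mul
        rw [← h2 i]
        exact ((h5 i).differentiableAt.hasDerivAt.const_add _).sub_const _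
      have hΨd : HasDerivAt Ψ (deriv P' t - ((∑ i, μ i * (deriv (U i) t / U i t)) * Q' t +
          (∑ i, μ i * (p.1.2 i + L i t - lam (u i) p.1.1 p.1.1)) * deriv Q' t)) t :=
        h3.differentiableAt.hasDerivAt.sub (hd.mul h4.differentiableAt.hasDerivAt)
      rw [hΨd.deriv]
      simp only [Ψ]
      linear_combination h1
    obtain ⟨c, hc⟩ := wronskian_zero hΨ hQ' hQ'0 hWr
    refine ⟨c, ?_⟩
    have hcont : Continuous fun q : Wh u => q.1.1 := continuous_fst.comp continuous_subtype_val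
    have hc' : ∀ᶠ q : Wh u in 𝓝 p, Ψ (τ q.1.1) = c * Q' (τ q.1.1) :=
      (hτ.comp hcont).continuousAt.eventually hc
    filter_upwards [hc', Sh_nhds huc (fun i => h0 i p.1.1) hO1 hO5 p hO2,
      hcont.continuousAt.eventually hPP', hcont.continuousAt.eventually hQQ',
      hcont.continuousAt.eventually (eventually_all.2 hLl)] with q h1 h2 h3 h4 h5
    simp only [Φ]
    rw [h3, h4, ← h1]
    simp only [Ψ]
    congr 2
    refine Finset.sum_congr rfl fun i _ => ?_
    rw [h2.2 i, h5 i]
  -- constancy of the ratio on the component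
  set c₀ : ℂ := Φ p₀ / Q w₀ with hc₀
  have hcomp : ∀ q ∈ connectedComponent p₀, ∀ᶠ q' in 𝓝 q, Φ q' = c₀ * Q q'.1.1 := by
    let A : Set (Wh u) := {q | ∀ᶠ q' in 𝓝 q, Φ q' = c₀ * Q q'.1.1}
    have hAo : IsOpen A := by
      rw [isOpen_iff_eventually]
      intro x hx
      exact Filter.Eventually.eventually_nhds hx
    have hQne : ∀ p : Wh u, ¬ ∀ᶠ q in 𝓝 p, Q q.1.1 = 0 := by
      intro p hp
      obtain ⟨O, hO1, hO2, hO3, -, hO5⟩ := exists_nhd huc p.1.1 (fun i => h0 i _) univ_mem
      apply not_ev_zero hτ hτo hQ hQ0 p.1.1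
      -- the section through p
      have hprf : ∀ x ∈ O, ∀ i, Complex.exp (p.1.2 i + lam (u i) p.1.1 x -
          lam (u i) p.1.1 p.1.1) = u i x := by
        intro x hx i
        rw [Complex.exp_sub, Complex.exp_add, exp_lam (h0 i _) (hO5 x hx i),
          exp_lam (h0 i _) (hO5 _ hO2 i), p.2 i]
        have h1 : u i p.1.1 ≠ 0 := h0 i _
        field_simp
      let σ : M → Wh u := fun x => if hx : x ∈ O then
        ⟨(x, fun i => p.1.2 i + lam (u i) p.1.1 x - lam (u i) p.1.1 p.1.1), hprf x hx⟩ else p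
      have hσp : σ p.1.1 = p := by
        simp only [σ]
        rw [dif_pos hO2]
        apply Subtype.ext
        apply Prod.ext
        · rfl
        · funext i; ring
      have hσ : ContinuousAt σ p.1.1 := by
        refine tendsto_subtype_rng.2 ?_
        have hc1 : ContinuousAt (fun x : M => ((x, fun i => p.1.2 i + lam (u i) p.1.1 x -
            lam (u i) p.1.1 p.1.1) : M × (Fin n → ℂ))) p.1.1 := by
          refine ContinuousAt.prodMk continuousAt_id ?_
          refine continuousAt_pi.2 fun i => ?_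
          exact (continuousAt_const.add
            (continuousAt_lam (huc i) (h0 i _) (hO5 _ hO2 i))).sub continuousAt_const
        have hc2 : Tendsto (fun x => ((σ x : Wh u) : M × (Fin n → ℂ))) (𝓝 p.1.1)
            (𝓝 ((p.1.1, fun i => p.1.2 i + lam (u i) p.1.1 p.1.1 -
              lam (u i) p.1.1 p.1.1) : M × (Fin n → ℂ))) := by
          refine hc1.tendsto.congr' ?_
          filter_upwards [hO1.mem_nhds hO2] with x hx
          simp only [σ]
          rw [dif_pos hx]
        have hc3 : ((σ p.1.1 : Wh u) : M × (Fin n → ℂ)) =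
            ((p.1.1, fun i => p.1.2 i + lam (u i) p.1.1 p.1.1 -
              lam (u i) p.1.1 p.1.1) : M × (Fin n → ℂ)) := by
          simp only [σ]
          rw [dif_pos hO2]
        rw [hc3]
        exact hc2
      have h1 : ∀ᶠ x in 𝓝 p.1.1, Q (σ x).1.1 = 0 := by
        have : Tendsto σ (𝓝 p.1.1) (𝓝 p) := by
          have h := hσ.tendsto
          rwa [hσp] at h
        exact this.eventually hp
      filter_upwards [h1, hO1.mem_nhds hO2] with x hx hxO
      simp only [σ] at hx
      rwa [dif_pos hxO] at hx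
    have hAc : IsClosed A := by
      rw [← closure_subset_iff_isClosed]
      intro p hp
      obtain ⟨c, hc⟩ := hloc p
      obtain ⟨q, hq1, hq2⟩ := mem_closure_iff_nhds.1 hp _ hc.eventually_nhds
      have hcc : c = c₀ := by
        by_contra hne
        apply hQne q
        have hq1' : ∀ᶠ q' in 𝓝 q, Φ q' = c * Q q'.1.1 := hq1
        have hq2' : ∀ᶠ q' in 𝓝 q, Φ q' = c₀ * Q q'.1.1 := hq2
        filter_upwards [hq1', hq2'] with q' h1 h2
        rw [h1] at h2
        have h3 : (c - c₀) * Q q'.1.1 = 0 := by linear_combination h2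
        rcases mul_eq_zero.1 h3 with h | h
        · exact absurd (sub_eq_zero.1 h) hne
        · exact h
      rw [hcc] at hc
      exact hc
    have h1 : p₀ ∈ A := by
      obtain ⟨c, hc⟩ := hloc p₀
      have h2 := hc.self_of_nhds
      have h3 : c = c₀ := by
        have hp₀ : p₀.1.1 = w₀ := rfl
        rw [hc₀, h2, hp₀]
        field_simp
      rw [h3] at hc
      exact hc
    exact IsClopen.connectedComponent_subset ⟨hAc, hAo⟩ h1
  -- the set of translations
  apply mu_zero {b : Fin n → ℤ | Tr u b p₀ ∈ connectedComponent p₀}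
  · intro c hc
    by_contra hcon
    push Not at hcon
    exact hind c hc (exists_log huc h0 p₀ c hcon)
  · intro b hb
    have h1 := (hcomp _ hb).self_of_nhds
    have h2 := (hcomp _ mem_connectedComponent).self_of_nhds
    simp only [Φ, Tr] at h1 h2
    have h3 : (∑ i, μ i * (b i : ℂ)) * ((2 * Real.pi * Complex.I) * Q w₀) = 0 := by
      have e1 : ∑ i, μ i * (p₀.1.2 i + (b i : ℂ) * (2 * Real.pi * Complex.I)) =
          ∑ i, μ i * p₀.1.2 i + (∑ i, μ i * (b i : ℂ)) * (2 * Real.pi * Complex.I) := by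
        rw [Finset.sum_mul, ← Finset.sum_add_distrib]
        exact Finset.sum_congr rfl fun i _ => by ring
      rw [e1] at h1
      have hp₀ : p₀.1.1 = w₀ := rfl
      rw [hp₀] at h1 h2
      linear_combination h2 - h1
    rcases mul_eq_zero.1 h3 with h | h
    · exact h
    · exfalso
      rcases mul_eq_zero.1 h with h | h
      · exact Complex.two_pi_I_ne_zero h
      · exact hQ0 h

end W489
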